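import Pool.Agent.Helper64.Sharp.LowerS
import Pool.Agent.Helper72.Cyc.AlgGraph

/-!
# Regular bipartite graphs from the affine parts of the generalised polygons
-/

set_option autoImplicit false
set_option linter.unusedSectionVars false

namespace Pool.Agent.Helper64.Sharp

open Finset SimpleGraph Pool.Agent.Helper72.Cyc

/-- A regular bipartite graph without short cycles: `N` vertices on each side, degree `D`. -/
def RegBip (D N g : ℕ) : Prop :=
  ∃ (A B : Type) (_ : Fintype A) (_ : Fintype B) (I : A → B → Prop)
    (_ : ∀ a b, Decidable (I a b)),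
    Fintype.card A = N ∧ Fintype.card B = N ∧
    (∀ a, (univ.filter (fun b => I a b)).card = D) ∧
    (∀ b, (univ.filter (fun a => I a b)).card = D) ∧ NoShort (bip I) g

theorem regBip_of_inc {F R : Type} [Fintype F] [Fintype R] [DecidableEq F] [DecidableEq R]
    {g : ℕ} (inc : F × R → F × R → Prop) (f f' : F × R → F → R)
    (h1 : ∀ P L, inc P L ↔ L.2 = f P L.1) (h2 : ∀ P L, inc P L ↔ P.2 = f' L P.1)
    (hNS : NoShort (bip inc) g) (X : Finset F) : RegBip X.card (X.card * Fintype.card R) g := by
  classical
  refine ⟨{x // x ∈ X} × R, {x // x ∈ X} × R, inferInstance, inferInstance,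
    fun a b => inc (a.1.1, a.2) (b.1.1, b.2), fun _ _ => Classical.dec _, ?_, ?_, ?_, ?_, ?_⟩
  · rw [Fintype.card_prod, Fintype.card_coe]
  · rw [Fintype.card_prod, Fintype.card_coe]
  · intro a
    have e : (univ.filter (fun b : {x // x ∈ X} × R => inc (a.1.1, a.2) (b.1.1, b.2))) =
        univ.image (fun x : {x // x ∈ X} => (x, f (a.1.1, a.2) x.1)) := by
      ext b
      rw [mem_filter, mem_image, h1]
      constructor
      · rintro ⟨-, h⟩
        exact ⟨b.1, mem_univ _, Prod.ext rfl h.symm⟩
      · rintro ⟨x, -, h⟩
        refine ⟨mem_univ _, ?_⟩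
        rw [← h]
    have e' : (univ.filter (fun b : {x // x ∈ X} × R => inc (a.1.1, a.2) (b.1.1, b.2))).card =
        X.card := by
      rw [e, card_image_of_injective, card_univ, Fintype.card_coe]
      intro x y h
      exact (Prod.ext_iff.1 h).1
    rw [← e']
  · intro b
    have e : (univ.filter (fun a : {x // x ∈ X} × R => inc (a.1.1, a.2) (b.1.1, b.2))) =
        univ.image (fun x : {x // x ∈ X} => (x, f' (b.1.1, b.2) x.1)) := by
      ext a
      rw [mem_filter, mem_image, h2]
      constructor
      · rintro ⟨-, h⟩
        exact ⟨a.1, mem_univ _, Prod.ext rfl h.symm⟩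
      · rintro ⟨x, -, h⟩
        refine ⟨mem_univ _, ?_⟩
        rw [← h]
    have e' : (univ.filter (fun a : {x // x ∈ X} × R => inc (a.1.1, a.2) (b.1.1, b.2))).card =
        X.card := by
      rw [e, card_image_of_injective, card_univ, Fintype.card_coe]
      intro x y h
      exact (Prod.ext_iff.1 h).1
    rw [← e']
  · apply hNS.comap (Sum.map (fun a : {x // x ∈ X} × R => (a.1.1, a.2))
      (fun a : {x // x ∈ X} × R => (a.1.1, a.2)))
    · have hinj : Function.Injective (fun a : {x // x ∈ X} × R => ((a.1.1, a.2) : F × R)) := by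
        rintro ⟨x, r⟩ ⟨y, s⟩ h
        simp only [Prod.mk.injEq] at h
        exact Prod.ext (Subtype.ext h.1) h.2
      exact Sum.map_injective.2 ⟨hinj, hinj⟩
    · rintro u v (⟨a, b, h, rfl, rfl⟩ | ⟨a, b, h, rfl, rfl⟩)
      · exact Or.inl ⟨_, _, h, rfl, rfl⟩
      · exact Or.inr ⟨_, _, h, rfl, rfl⟩

theorem regBip_prime {k p D : ℕ} (hk : k = 2 ∨ k = 3 ∨ k = 5) (hp : p.Prime) (hD : D ≤ p) :
    RegBip D (D * p ^ (k - 1)) (2 * k + 2) := by
  have : Fact p.Prime := ⟨hp⟩
  obtain ⟨X, -, hX⟩ := Finset.exists_subset_card_eq
    (show D ≤ (univ : Finset (ZMod p)).card by rw [card_univ, ZMod.card]; exact hD)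
  rcases hk with rfl | rfl | rfl
  · have h := regBip_of_inc (F := ZMod p) (R := ZMod p) (g := 6) inc2
      (fun P a => P.1 * a - P.2) (fun L x => x * L.1 - L.2)
      (fun P L => by
        unfold inc2
        constructor
        · intro h; linear_combination h
        · intro h; linear_combination h)
      (fun P L => by
        unfold inc2
        constructor
        · intro h; linear_combination h
        · intro h; linear_combination h)
      noShort_inc2 X
    rw [hX, ZMod.card] at h
    simpa using h
  · have h := regBip_of_inc (F := ZMod p) (R := ZMod p × ZMod p) (g := 8) inc3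
      (fun P a => (P.1 * a - P.2.1, P.1 * (P.1 * a - P.2.1) - P.2.2))
      (fun L x => (x * L.1 - L.2.1, x * L.2.1 - L.2.2))
      (fun P L => by
        unfold inc3
        rw [Prod.ext_iff]
        constructor
        · rintro ⟨h1, h2⟩
          exact ⟨by linear_combination h1, by linear_combination h2 + P.1 * h1⟩
        · rintro ⟨h1, h2⟩
          simp only at h1 h2
          exact ⟨by linear_combination h1, by linear_combination h2 - P.1 * h1⟩)
      (fun P L => by
        unfold inc3
        rw [Prod.ext_iff]
        constructor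
        · rintro ⟨h1, h2⟩
          exact ⟨by linear_combination h1, by linear_combination h2⟩
        · rintro ⟨h1, h2⟩
          simp only at h1 h2
          exact ⟨by linear_combination h1, by linear_combination h2⟩)
      noShort_inc3 X
    rw [hX] at h
    have e : Fintype.card (ZMod p × ZMod p) = p ^ (3 - 1) := by
      simp only [Fintype.card_prod, ZMod.card]; ring
    rw [e] at h
    exact h
  · have h := regBip_of_inc (F := ZMod p) (R := ZMod p × ZMod p × ZMod p × ZMod p) (g := 12) inc5
      (fun P a => (P.1 * a - P.2.1, P.1 * (P.1 * a - P.2.1) - P.2.2.1,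
        P.1 * (P.1 * (P.1 * a - P.2.1) - P.2.2.1) - P.2.2.2.1,
        P.2.1 * (P.1 * (P.1 * a - P.2.1) - P.2.2.1) - P.2.2.1 * (P.1 * a - P.2.1) - P.2.2.2.2))
      (fun L x => (x * L.1 - L.2.1, x * L.2.1 - L.2.2.1, x * L.2.2.1 - L.2.2.2.1,
        (x * L.1 - L.2.1) * L.2.2.1 - (x * L.2.1 - L.2.2.1) * L.2.1 - L.2.2.2.2))
      (fun P L => by
        unfold inc5
        rw [Prod.ext_iff, Prod.ext_iff, Prod.ext_iff]
        constructor
        · rintro ⟨h1, h2, h3, h4⟩
          refine ⟨by linear_combination h1, by linear_combination h2 + P.1 * h1, ?_, ?_⟩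
          · linear_combination h3 + P.1 * h2 + P.1 * P.1 * h1
          · linear_combination h4 + P.2.1 * (h2 + P.1 * h1) - P.2.2.1 * h1
        · rintro ⟨h1, h2, h3, h4⟩
          simp only at h1 h2 h3 h4
          refine ⟨by linear_combination h1, by linear_combination h2 - P.1 * h1, ?_, ?_⟩
          · linear_combination h3 - P.1 * h2
          · linear_combination h4 - P.2.1 * h2 + P.2.2.1 * h1)
      (fun P L => by
        unfold inc5
        rw [Prod.ext_iff, Prod.ext_iff, Prod.ext_iff]
        constructor
        · rintro ⟨h1, h2, h3, h4⟩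
          refine ⟨by linear_combination h1, by linear_combination h2, by linear_combination h3, ?_⟩
          linear_combination h4 + L.2.2.1 * h1 - L.2.1 * h2
        · rintro ⟨h1, h2, h3, h4⟩
          simp only at h1 h2 h3 h4
          refine ⟨by linear_combination h1, by linear_combination h2, by linear_combination h3, ?_⟩
          linear_combination h4 - L.2.2.1 * h1 + L.2.1 * h2)
      noShort_inc5 X
    rw [hX] at h
    have e : Fintype.card (ZMod p × ZMod p × ZMod p × ZMod p) = p ^ (5 - 1) := by
      simp only [Fintype.card_prod, ZMod.card]; ring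
    rw [e] at h
    exact h

end Pool.Agent.Helper64.Sharp
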