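import Mathlib

/-!
# Bregman's theorem (Schrijver's proof), logarithmic form
-/

set_option autoImplicit false

namespace Pool.Agent.Helper64.Sharp

open Finset

variable {α β : Type*} [Fintype α] [DecidableEq α] [Fintype β] [DecidableEq β]

/-- The partial maps defined on `R`, injective, with values in `S` along `N`. -/
def BM (N : α → Finset β) (R : Finset α) (S : Finset β) : Finset (α → Option β) :=
  univ.filter fun f => (∀ a, a ∉ R → f a = none) ∧ (∀ a ∈ R, ∃ b ∈ N a ∩ S, f a = some b) ∧
    ∀ a ∈ R, ∀ a' ∈ R, f a = f a' → a = a'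

theorem mem_BM {N : α → Finset β} {R : Finset α} {S : Finset β} {f : α → Option β} :
    f ∈ BM N R S ↔ (∀ a, a ∉ R → f a = none) ∧ (∀ a ∈ R, ∃ b ∈ N a ∩ S, f a = some b) ∧
      ∀ a ∈ R, ∀ a' ∈ R, f a = f a' → a = a' := by
  unfold BM
  rw [mem_filter]
  simp

/-- `φ(r) = (log r!) / r`. -/
noncomputable def phi (r : ℕ) : ℝ := Real.log (r.factorial : ℝ) / r

theorem phi_nonneg (r : ℕ) : 0 ≤ phi r := by
  unfold phi
  apply div_nonneg (Real.log_nonneg _) (Nat.cast_nonneg _)
  exact_mod_cast Nat.factorial_pos r

theorem mul_phi (r : ℕ) (hr : 1 ≤ r) : (r : ℝ) * phi r = Real.log (r.factorial : ℝ) := by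
  unfold phi
  have : (r : ℝ) ≠ 0 := by exact_mod_cast (by omega : r ≠ 0)
  field_simp

theorem mul_phi_pred (r : ℕ) (hr : 1 ≤ r) :
    ((r : ℝ) - 1) * phi (r - 1) = Real.log (r.factorial : ℝ) - Real.log r := by
  obtain ⟨s, rfl⟩ : ∃ s, r = s + 1 := ⟨r - 1, by omega⟩
  have h1 : ((s + 1 : ℕ) : ℝ) - 1 = s := by push_cast; ring
  rw [h1, Nat.add_sub_cancel]
  rcases Nat.eq_zero_or_pos s with rfl | hs
  · simp
  · rw [mul_phi s hs, Nat.factorial_succ]
    push_cast
    rw [Real.log_mul (by positivity) (by positivity)]
    ring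

/-- Deleting a row and a column. -/
theorem card_filter_BM {N : α → Finset β} {R : Finset α} {S : Finset β} {a : α} {b : β}
    (ha : a ∈ R) (hb : b ∈ N a ∩ S) :
    ((BM N R S).filter fun f => f a = some b).card = (BM N (R.erase a) (S.erase b)).card := by
  apply Finset.card_bij (fun f _ => Function.update f a none)
  · intro f hf
    rw [mem_filter, mem_BM] at hf
    obtain ⟨⟨h1, h2, h3⟩, h4⟩ := hf
    rw [mem_BM]
    refine ⟨?_, ?_, ?_⟩
    · intro c hc
      by_cases hca : c = a
      · subst hca; simp
      · rw [Function.update_of_ne hca]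
        exact h1 c fun h => hc (mem_erase.2 ⟨hca, h⟩)
    · intro c hc
      rw [mem_erase] at hc
      rw [Function.update_of_ne hc.1]
      obtain ⟨d, hd, hfd⟩ := h2 c hc.2
      refine ⟨d, ?_, hfd⟩
      rw [mem_inter] at hd ⊢
      refine ⟨hd.1, mem_erase.2 ⟨?_, hd.2⟩⟩
      rintro rfl
      exact hc.1 (h3 c hc.2 a ha (by rw [hfd, h4]))
    · intro c hc c' hc' h
      rw [mem_erase] at hc hc'
      rw [Function.update_of_ne hc.1, Function.update_of_ne hc'.1] at h
      exact h3 c hc.2 c' hc'.2 h
  · intro f hf f' hf' h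
    rw [mem_filter] at hf hf'
    funext c
    by_cases hca : c = a
    · subst hca; rw [hf.2, hf'.2]
    · have := congrFun h c
      rwa [Function.update_of_ne hca, Function.update_of_ne hca] at this
  · intro f hf
    rw [mem_BM] at hf
    obtain ⟨h1, h2, h3⟩ := hf
    refine ⟨Function.update f a (some b), ?_, ?_⟩
    · rw [mem_filter, mem_BM]
      refine ⟨⟨?_, ?_, ?_⟩, by simp⟩
      · intro c hc
        have hca : c ≠ a := fun h => hc (h ▸ ha)
        rw [Function.update_of_ne hca]
        exact h1 c fun h => hc (mem_of_mem_erase h)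
      · intro c hc
        by_cases hca : c = a
        · subst hca
          exact ⟨b, hb, by simp⟩
        · rw [Function.update_of_ne hca]
          obtain ⟨d, hd, hfd⟩ := h2 c (mem_erase.2 ⟨hca, hc⟩)
          rw [mem_inter] at hd
          exact ⟨d, mem_inter.2 ⟨hd.1, mem_of_mem_erase hd.2⟩, hfd⟩
      · have key : ∀ c ∈ R, c ≠ a → f c ≠ some b := by
          intro c hc hca h
          obtain ⟨d, hd, hfd⟩ := h2 c (mem_erase.2 ⟨hca, hc⟩)
          rw [mem_inter, mem_erase] at hd
          rw [h] at hfd
          exact hd.2.1 (Option.some.inj hfd).symm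
        intro c hc c' hc' h
        by_cases hca : c = a
        · by_cases hca' : c' = a
          · rw [hca, hca']
          · exfalso
            subst hca
            rw [Function.update_self, Function.update_of_ne hca'] at h
            exact key c' hc' hca' h.symm
        · by_cases hca' : c' = a
          · exfalso
            subst hca'
            rw [Function.update_self, Function.update_of_ne hca] at h
            exact key c hc hca h
          · rw [Function.update_of_ne hca, Function.update_of_ne hca'] at h
            exact h3 c (mem_erase.2 ⟨hca, hc⟩) c' (mem_erase.2 ⟨hca', hc'⟩) h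
    · funext c
      by_cases hca : c = a
      · subst hca
        simp only [Function.update_self]
        exact (h1 c (by simp)).symm
      · simp only [Function.update_of_ne hca]

/-- Expansion along a row. -/
theorem card_BM_eq_sum {N : α → Finset β} {R : Finset α} {S : Finset β} {a : α} (ha : a ∈ R) :
    (BM N R S).card = ∑ b ∈ N a ∩ S, (BM N (R.erase a) (S.erase b)).card := by
  have h1 : BM N R S = (N a ∩ S).biUnion fun b => (BM N R S).filter fun f => f a = some b := by
    ext f
    rw [mem_biUnion]
    constructor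
    · intro hf
      obtain ⟨b, hb, hfb⟩ := (mem_BM.1 hf).2.1 a ha
      exact ⟨b, hb, mem_filter.2 ⟨hf, hfb⟩⟩
    · rintro ⟨b, -, hf⟩
      exact (mem_filter.1 hf).1
  conv_lhs => rw [h1]
  rw [card_biUnion]
  · exact sum_congr rfl fun b hb => card_filter_BM ha hb
  · intro b _ b' _ hbb'
    rw [Function.onFun, disjoint_left]
    intro f hf hf'
    rw [mem_filter] at hf hf'
    rw [hf.2] at hf'
    exact hbb' (Option.some.inj hf'.2)

/-- The log-sum inequality. -/
theorem log_sum {ι : Type*} (T : Finset ι) (x : ι → ℝ) (hx : ∀ i ∈ T, 0 ≤ x i)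
    (hP : 0 < ∑ i ∈ T, x i) :
    (∑ i ∈ T, x i) * Real.log (∑ i ∈ T, x i) ≤
      (∑ i ∈ T, x i) * Real.log T.card + ∑ i ∈ T, x i * Real.log (x i) := by
  have hT : T.Nonempty := by
    by_contra h
    rw [not_nonempty_iff_eq_empty] at h
    rw [h] at hP
    simp at hP
  have hc : (0 : ℝ) < T.card := by exact_mod_cast hT.card_pos
  have h1 := Real.convexOn_mul_log.map_sum_le (t := T) (w := fun _ => (T.card : ℝ)⁻¹) (p := x)
    (fun i _ => by positivity) (by simp [hc.ne']) (fun i hi => hx i hi)
  simp only [smul_eq_mul] at h1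
  rw [← mul_sum, ← mul_sum] at h1
  set P := ∑ i ∈ T, x i with hPdef
  rw [Real.log_mul (by positivity) hP.ne', Real.log_inv] at h1
  have h2 := mul_le_mul_of_nonneg_left h1 hc.le
  have h3 : (T.card : ℝ) * ((T.card : ℝ)⁻¹ * P * (-Real.log T.card + Real.log P)) =
      P * Real.log P - P * Real.log T.card := by
    field_simp
    ring
  have h4 : (T.card : ℝ) * ((T.card : ℝ)⁻¹ * ∑ i ∈ T, x i * Real.log (x i)) =
      ∑ i ∈ T, x i * Real.log (x i) := by
    field_simp
  rw [h3, h4] at h2
  linarith

/-- Counting the rows whose image lies in `N j`. -/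
theorem count_rows {N : α → Finset β} {R : Finset α} {S : Finset β} (hRS : R.card = S.card)
    {f : α → Option β} (hf : f ∈ BM N R S) {j : α} (hj : j ∈ R) :
    ((R.erase j).filter fun i => ∃ b ∈ N j, f i = some b).card + 1 = (N j ∩ S).card := by
  rw [mem_BM] at hf
  obtain ⟨-, h2, h3⟩ := hf
  have hinj : Set.InjOn f R := fun a ha a' ha' h => h3 a ha a' ha' h
  have himg : R.image f = S.image some := by
    apply eq_of_subset_of_card_le
    · intro y hy
      rw [mem_image] at hy ⊢
      obtain ⟨a, ha, rfl⟩ := hy
      obtain ⟨b, hb, hab⟩ := h2 a ha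
      exact ⟨b, (mem_inter.1 hb).2, hab.symm⟩
    · rw [card_image_of_injOn hinj, card_image_of_injective _ (Option.some_injective _), hRS]
  have h4 : (R.filter fun i => ∃ b ∈ N j, f i = some b).card = (N j ∩ S).card := by
    have h5 : (R.filter fun i => ∃ b ∈ N j, f i = some b).image f = (N j ∩ S).image some := by
      ext y
      rw [mem_image, mem_image]
      constructor
      · rintro ⟨i, hi, rfl⟩
        rw [mem_filter] at hi
        obtain ⟨hiR, b, hb, hib⟩ := hi
        have h6 : f i ∈ S.image some := by
          rw [← himg]; exact mem_image_of_mem _ hiR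
        rw [mem_image] at h6
        obtain ⟨b', hb', hbb'⟩ := h6
        rw [hib] at hbb'
        have := Option.some.inj hbb'
        subst this
        exact ⟨b', mem_inter.2 ⟨hb, hb'⟩, hib.symm⟩
      · rintro ⟨b, hb, rfl⟩
        rw [mem_inter] at hb
        have h6 : some b ∈ R.image f := by
          rw [himg]; exact mem_image_of_mem _ hb.2
        rw [mem_image] at h6
        obtain ⟨i, hi, hib⟩ := h6
        exact ⟨i, mem_filter.2 ⟨hi, b, hb.1, hib⟩, hib⟩
    rw [← card_image_of_injective (N j ∩ S) (Option.some_injective _), ← h5,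
      card_image_of_injOn]
    exact hinj.mono (by intro x hx; exact (mem_filter.1 hx).1)
  have h5 : (R.erase j).filter (fun i => ∃ b ∈ N j, f i = some b) =
      (R.filter fun i => ∃ b ∈ N j, f i = some b).erase j := by
    ext i
    simp only [mem_filter, mem_erase]
    tauto
  rw [h5, card_erase_of_mem, h4]
  · have : 0 < (N j ∩ S).card := by
      rw [← h4, card_pos]
      obtain ⟨b, hb, hjb⟩ := h2 j hj
      exact ⟨j, mem_filter.2 ⟨hj, b, (mem_inter.1 hb).1, hjb⟩⟩
    omega
  · obtain ⟨b, hb, hjb⟩ := h2 j hj
    exact mem_filter.2 ⟨hj, b, (mem_inter.1 hb).1, hjb⟩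

theorem log_card_BM_aux (N : α → Finset β) : ∀ n : ℕ, ∀ R : Finset α, ∀ S : Finset β,
    R.card = n → S.card = n →
      Real.log ((BM N R S).card : ℝ) ≤ ∑ j ∈ R, phi ((N j ∩ S).card) := by
  intro n
  induction n with
  | zero =>
    intro R S hR hS
    rw [card_eq_zero] at hR
    subst hR
    rw [sum_empty]
    have h1 : (BM N ∅ S).card ≤ 1 := by
      rw [card_le_one]
      intro f hf f' hf'
      rw [mem_BM] at hf hf'
      funext a
      rw [hf.1 a (by simp), hf'.1 a (by simp)]
    rcases Nat.le_one_iff_eq_zero_or_eq_one.1 h1 with h | h <;> rw [h] <;> simp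
  | succ n ih =>
    intro R S hR hS
    set P : ℝ := ((BM N R S).card : ℝ) with hP
    rcases Nat.eq_zero_or_pos (BM N R S).card with h0 | hpos
    · rw [hP, h0, Nat.cast_zero, Real.log_zero]
      exact sum_nonneg fun j _ => phi_nonneg _
    have hPpos : 0 < P := by rw [hP]; exact_mod_cast hpos
    have hRS : R.card = S.card := by rw [hR, hS]
    obtain ⟨f0, hf0⟩ := card_pos.1 hpos
    -- the numbers of entries in the rows are positive
    have hr : ∀ j ∈ R, 1 ≤ (N j ∩ S).card := by
      intro j hj
      obtain ⟨b, hb, -⟩ := (mem_BM.1 hf0).2.1 j hj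
      exact card_pos.2 ⟨b, hb⟩
    -- one row
    have hrow : ∀ i ∈ R, P * Real.log P ≤ P * Real.log ((N i ∩ S).card : ℝ) +
        ∑ f ∈ BM N R S, ∑ b ∈ N i ∩ S, if f i = some b then
          Real.log ((BM N (R.erase i) (S.erase b)).card : ℝ) else 0 := by
      intro i hi
      have h1 : P = ∑ b ∈ N i ∩ S, ((BM N (R.erase i) (S.erase b)).card : ℝ) := by
        rw [hP, card_BM_eq_sum hi]; push_cast; rfl
      have h2 := log_sum (N i ∩ S) (fun b => ((BM N (R.erase i) (S.erase b)).card : ℝ))
        (fun b _ => Nat.cast_nonneg _) (by rw [← h1]; exact hPpos)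
      rw [← h1] at h2
      refine h2.trans (le_of_eq ?_)
      congr 1
      rw [sum_comm]
      refine sum_congr rfl fun b hb => ?_
      rw [← sum_filter, sum_const, card_filter_BM hi hb, nsmul_eq_mul]
    -- the bound from the induction hypothesis
    have hind : ∀ f ∈ BM N R S, ∀ i ∈ R, (∑ b ∈ N i ∩ S, if f i = some b then
          Real.log ((BM N (R.erase i) (S.erase b)).card : ℝ) else 0) ≤
        ∑ j ∈ R.erase i, if ∃ b ∈ N j, f i = some b then phi ((N j ∩ S).card - 1)
          else phi ((N j ∩ S).card) := by
      intro f hf i hi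
      obtain ⟨b, hb, hib⟩ := (mem_BM.1 hf).2.1 i hi
      rw [sum_eq_single_of_mem b hb, if_pos hib]
      · have hbS : b ∈ S := (mem_inter.1 hb).2
        refine (ih (R.erase i) (S.erase b) (by rw [card_erase_of_mem hi, hR]; omega)
          (by rw [card_erase_of_mem hbS, hS]; omega)).trans (le_of_eq ?_)
        refine sum_congr rfl fun j _ => ?_
        have h1 : N j ∩ S.erase b = (N j ∩ S).erase b := by
          ext x; simp only [mem_inter, mem_erase]; tauto
        rw [h1]
        by_cases hbN : b ∈ N j
        · rw [if_pos ⟨b, hbN, hib⟩, card_erase_of_mem (mem_inter.2 ⟨hbN, hbS⟩)]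
        · rw [if_neg, erase_eq_of_notMem fun h => hbN (mem_inter.1 h).1]
          rintro ⟨b', hb', hib'⟩
          rw [hib] at hib'
          exact hbN (Option.some.inj hib' ▸ hb')
      · intro b' _ hbb'
        rw [if_neg]
        intro h
        rw [hib] at h
        exact hbb' (Option.some.inj h).symm
    -- summing up
    have hsum : ((n + 1 : ℕ) : ℝ) * (P * Real.log P) ≤
        P * ∑ j ∈ R, Real.log ((N j ∩ S).card : ℝ) +
        ∑ f ∈ BM N R S, ∑ j ∈ R, (((n + 1 : ℕ) : ℝ) * phi ((N j ∩ S).card) -
          Real.log ((N j ∩ S).card : ℝ)) := by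
      calc ((n + 1 : ℕ) : ℝ) * (P * Real.log P) = ∑ i ∈ R, P * Real.log P := by
            rw [sum_const, hR, nsmul_eq_mul]
        _ ≤ ∑ i ∈ R, (P * Real.log ((N i ∩ S).card : ℝ) +
              ∑ f ∈ BM N R S, ∑ b ∈ N i ∩ S, if f i = some b then
                Real.log ((BM N (R.erase i) (S.erase b)).card : ℝ) else 0) :=
            sum_le_sum hrow
        _ = P * ∑ j ∈ R, Real.log ((N j ∩ S).card : ℝ) +
              ∑ f ∈ BM N R S, ∑ i ∈ R, ∑ b ∈ N i ∩ S, if f i = some b then
                Real.log ((BM N (R.erase i) (S.erase b)).card : ℝ) else 0 := by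
            rw [sum_add_distrib, mul_sum, sum_comm (s := R)]
        _ ≤ _ := by
            refine add_le_add_right (sum_le_sum fun f hf => ?_) _
            calc (∑ i ∈ R, ∑ b ∈ N i ∩ S, if f i = some b then
                  Real.log ((BM N (R.erase i) (S.erase b)).card : ℝ) else 0)
                ≤ ∑ i ∈ R, ∑ j ∈ R.erase i, (if ∃ b ∈ N j, f i = some b then
                    phi ((N j ∩ S).card - 1) else phi ((N j ∩ S).card)) :=
                  sum_le_sum fun i hi => hind f hf i hi
              _ = ∑ j ∈ R, ∑ i ∈ R.erase j, (if ∃ b ∈ N j, f i = some b then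
                    phi ((N j ∩ S).card - 1) else phi ((N j ∩ S).card)) := by
                  apply sum_comm'
                  intro i j
                  simp only [mem_erase]
                  tauto
              _ = _ := by
                  refine sum_congr rfl fun j hj => ?_
                  rw [sum_ite, sum_const, sum_const, nsmul_eq_mul, nsmul_eq_mul]
                  have h1 := count_rows hRS hf hj
                  have h2 := card_filter_add_card_filter_not (s := R.erase j)
                    (fun i => ∃ b ∈ N j, f i = some b)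
                  rw [card_erase_of_mem hj, hR] at h2
                  have h3 := hr j hj
                  set r := (N j ∩ S).card with hrdef
                  have h4 : ((((R.erase j).filter fun i => ∃ b ∈ N j, f i = some b).card : ℕ) : ℝ)
                      = (r : ℝ) - 1 := by
                    rw [← h1]; push_cast; ring
                  have h5 : ((((R.erase j).filter fun i => ¬ ∃ b ∈ N j, f i = some b).card : ℕ) : ℝ)
                      = ((n + 1 : ℕ) : ℝ) - r := by
                    have : ((R.erase j).filter fun i => ¬ ∃ b ∈ N j, f i = some b).card + r =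
                      n + 1 := by omega
                    rw [← this]; push_cast; ring
                  rw [h4, h5, mul_phi_pred r h3]
                  have h6 := mul_phi r h3
                  linarith [h6, sub_mul ((n + 1 : ℕ) : ℝ) (r : ℝ) (phi r)]
    rw [sum_const, nsmul_eq_mul, ← hP, sum_sub_distrib, mul_sub, ← mul_sum] at hsum
    have hn : (0 : ℝ) < ((n + 1 : ℕ) : ℝ) := by positivity
    have h1 : ((n + 1 : ℕ) : ℝ) * P * Real.log P ≤
        ((n + 1 : ℕ) : ℝ) * P * ∑ j ∈ R, phi ((N j ∩ S).card) := by
      calc _ = ((n + 1 : ℕ) : ℝ) * (P * Real.log P) := by ring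
        _ ≤ _ := hsum
        _ = _ := by ring
    exact le_of_mul_le_mul_left h1 (by positivity)

/-- Bregman's theorem for the number of perfect matchings between `R` and `S`. -/
theorem log_card_BM {N : α → Finset β} {R : Finset α} {S : Finset β} (h : R.card = S.card) :
    Real.log ((BM N R S).card : ℝ) ≤ ∑ j ∈ R, phi ((N j ∩ S).card) :=
  log_card_BM_aux N S.card R S h rfl

end Pool.Agent.Helper64.Sharp
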