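import Pool.Agent.Helper64.Sharp.Many

/-!
# Numerical estimates for the sharp lower bound
-/

set_option autoImplicit false
set_option linter.unusedSectionVars false

namespace Pool.Agent.Helper64.Sharp

open Finset

theorem log_factorial_le (D : ℕ) (hD : 1 ≤ D) :
    Real.log (D.factorial : ℝ) ≤ D * Real.log D - D + 1 + Real.log D := by
  induction D, hD using Nat.le_induction with
  | base => simp
  | succ D hD ih =>
    have hD0 : (0 : ℝ) < D := by exact_mod_cast hD
    rw [Nat.factorial_succ]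
    push_cast
    rw [Real.log_mul (by positivity) (by positivity)]
    have h1 := Real.one_sub_inv_le_log_of_pos (show (0 : ℝ) < ((D : ℝ) + 1) / D by positivity)
    rw [Real.log_div (by positivity) hD0.ne'] at h1
    have h2 : 1 - (((D : ℝ) + 1) / D)⁻¹ = 1 / (D + 1) := by field_simp; ring
    rw [h2] at h1
    have h3 := mul_le_mul_of_nonneg_left h1 (show (0 : ℝ) ≤ (D : ℝ) + 1 by positivity)
    have h4 : ((D : ℝ) + 1) * (1 / (D + 1)) = 1 := by field_simp
    rw [h4] at h3
    nlinarith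

theorem phi_upper (D : ℕ) (hD : 1 ≤ D) :
    phi D ≤ Real.log D - 1 + (1 + Real.log D) / D := by
  have hD0 : (0 : ℝ) < D := by exact_mod_cast hD
  unfold phi
  rw [div_le_iff₀ hD0, add_mul, div_mul_cancel₀ _ hD0.ne']
  have := log_factorial_le D hD
  linarith

theorem phi_lower (D : ℕ) (hD : 1 ≤ D) : Real.log D - 1 ≤ phi D := by
  have hD0 : (0 : ℝ) < D := by exact_mod_cast hD
  unfold phi
  rw [le_div_iff₀ hD0]
  have h2 := Real.pow_div_factorial_le_exp (D : ℝ) hD0.le D
  rw [div_le_iff₀ (by positivity)] at h2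
  have h3 := Real.log_le_log (by positivity) h2
  rw [Real.log_pow, Real.log_mul (Real.exp_pos _).ne' (by positivity), Real.log_exp] at h3
  linarith

theorem log_num {K : ℕ} {D N : ℝ} (hD : 1 ≤ D) (hN0 : 0 ≤ N) (hN : N ≤ D ^ K) :
    Real.log (2 * (2 * N + 1)) ≤ (K + 2) * (1 + Real.log D) := by
  have hD0 : 0 < D := by linarith
  have hl0 : 0 ≤ Real.log D := Real.log_nonneg hD
  have hk0 : (0 : ℝ) ≤ K := Nat.cast_nonneg K
  have h5 : 1 ≤ D ^ K := one_le_pow₀ hD
  have h1 : 2 * (2 * N + 1) ≤ Real.exp 2 * D ^ K := by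
    have h2 : Real.exp 2 = (Real.exp 1) ^ 2 := by rw [← Real.exp_nat_mul]; norm_num
    have h3 := Real.exp_one_gt_d9
    have h4 : (6 : ℝ) ≤ Real.exp 2 := by rw [h2]; nlinarith
    have h6 : 6 * D ^ K ≤ Real.exp 2 * D ^ K := mul_le_mul_of_nonneg_right h4 (by linarith)
    linarith
  have h2 := Real.log_le_log (by positivity) h1
  rw [Real.log_mul (Real.exp_pos _).ne' (by positivity), Real.log_exp, Real.log_pow] at h2
  have h3 : 0 ≤ (K : ℝ) * 1 := by linarith
  linarith [mul_nonneg hk0 hl0]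

theorem q_num {n t u : ℝ} {D : ℕ} (hD : 1 ≤ D) (hn : 0 < n) (ht : 0 < t) (hu0 : 0 < u)
    (hu3 : u ^ 3 = D) (ht1 : n / u ≤ t) :
    (Real.exp 1 * n / t) ^ 2 * Real.exp (-phi D) ≤ Real.exp (3 - Real.log u) := by
  have hlogu : 3 * Real.log u = Real.log D := by
    rw [← hu3, Real.log_pow]; norm_num
  have h1 : n / t ≤ u := by
    rw [div_le_iff₀ ht]
    rw [div_le_iff₀ hu0] at ht1
    linarith
  have h2 : (Real.exp 1 * n / t) ^ 2 ≤ (Real.exp 1 * u) ^ 2 := by
    apply pow_le_pow_left₀ (by positivity)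
    rw [mul_div_assoc]
    exact mul_le_mul_of_nonneg_left h1 (Real.exp_pos _).le
  have h3 : Real.exp (-phi D) ≤ Real.exp (1 - Real.log D) := by
    apply Real.exp_le_exp.2
    have := phi_lower D hD
    linarith
  have h4 : (Real.exp 1 * u) ^ 2 = Real.exp (2 + 2 * Real.log u) := by
    rw [mul_pow, Real.exp_add, ← Real.exp_nat_mul]
    congr 1
    · norm_num
    · rw [mul_comm (2 : ℝ), Real.exp_mul, Real.exp_log hu0]
      norm_num
  calc (Real.exp 1 * n / t) ^ 2 * Real.exp (-phi D)
      ≤ Real.exp (2 + 2 * Real.log u) * Real.exp (1 - Real.log D) := by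
        rw [← h4]
        exact mul_le_mul h2 h3 (Real.exp_pos _).le (by positivity)
    _ = Real.exp (3 - Real.log u) := by
        rw [← Real.exp_add]; congr 1; linarith

theorem many_num {n u q m : ℝ} {D t : ℕ} (hD : 1 ≤ D) (hn : 0 < n) (hu : 2 ≤ u)
    (hu3 : u ^ 3 = D) (ht1 : n / u ≤ t) (hq0 : 0 < q) (hq : q ≤ Real.exp (3 - Real.log u))
    (hlu4 : 4 ≤ Real.log u) (h1l : 1 + Real.log D ≤ u)
    (hlog : Real.log (2 * (n + 1)) ≤ m) (hm : m ≤ n / u / 2) :
    (n + 1) * (q ^ t * Real.exp (n * phi D)) ≤ 1 / 2 * Real.exp (n * (Real.log D - 1)) := by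
  have hu0 : 0 < u := by linarith
  have hD0 : (0 : ℝ) < D := by exact_mod_cast hD
  have hnu : 0 < n / u := by positivity
  have h1 : q ^ t ≤ Real.exp (t * (3 - Real.log u)) := by
    calc q ^ t ≤ Real.exp (3 - Real.log u) ^ t := pow_le_pow_left₀ hq0.le hq t
      _ = _ := by rw [← Real.exp_nat_mul]
  have h2 : Real.exp (n * phi D) ≤
      Real.exp (n * (Real.log D - 1) + n * ((1 + Real.log D) / D)) := by
    apply Real.exp_le_exp.2
    have := mul_le_mul_of_nonneg_left (phi_upper D hD) hn.le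
    linarith
  have h3 : Real.log (2 * (n + 1)) + t * (3 - Real.log u) + n * ((1 + Real.log D) / D) ≤ 0 := by
    have e1 : (t : ℝ) * (3 - Real.log u) ≤ -(n / u) := by
      have : (t : ℝ) * (3 - Real.log u) ≤ t * (-1) :=
        mul_le_mul_of_nonneg_left (by linarith) (Nat.cast_nonneg _)
      linarith
    have e2 : n * ((1 + Real.log D) / D) ≤ n / u / 2 := by
      have e3 : (1 + Real.log D) / D ≤ 1 / u / 2 := by
        rw [div_div, div_le_div_iff₀ hD0 (by positivity)]
        have e5 : (1 + Real.log D) * (u * 2) ≤ u * (u * 2) :=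
          mul_le_mul_of_nonneg_right h1l (by positivity)
        have e6 : u * (u * 2) ≤ u * (u * u) := by
          apply mul_le_mul_of_nonneg_left _ hu0.le
          exact mul_le_mul_of_nonneg_left hu hu0.le
        calc (1 + Real.log D) * (u * 2) ≤ u * (u * u) := e5.trans e6
          _ = 1 * u ^ 3 := by ring
          _ = 1 * (D : ℝ) := by rw [hu3]
      calc n * ((1 + Real.log D) / D) ≤ n * (1 / u / 2) := mul_le_mul_of_nonneg_left e3 hn.le
        _ = n / u / 2 := by ring
    linarith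
  have h4 : Real.exp (Real.log (2 * (n + 1))) = 2 * (n + 1) :=
    Real.exp_log (by positivity)
  calc (n + 1) * (q ^ t * Real.exp (n * phi D))
      ≤ (n + 1) * (Real.exp (t * (3 - Real.log u)) *
          Real.exp (n * (Real.log D - 1) + n * ((1 + Real.log D) / D))) := by
        apply mul_le_mul_of_nonneg_left _ (by positivity)
        exact mul_le_mul h1 h2 (Real.exp_pos _).le (Real.exp_pos _).le
    _ = 1 / 2 * (Real.exp (Real.log (2 * (n + 1)) + t * (3 - Real.log u) +
          n * ((1 + Real.log D) / D)) * Real.exp (n * (Real.log D - 1))) := by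
        have h5 : Real.exp (Real.log (2 * (n + 1)) + t * (3 - Real.log u) +
            n * ((1 + Real.log D) / D)) = 2 * (n + 1) * Real.exp (t * (3 - Real.log u)) *
            Real.exp (n * ((1 + Real.log D) / D)) := by
          rw [Real.exp_add, Real.exp_add, h4]
        rw [h5, Real.exp_add]; ring
    _ ≤ 1 / 2 * (1 * Real.exp (n * (Real.log D - 1))) := by
        apply mul_le_mul_of_nonneg_left _ (by norm_num)
        apply mul_le_mul_of_nonneg_right _ (Real.exp_pos _).le
        exact Real.exp_le_one_iff.2 h3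
    _ = _ := by ring

theorem logL_num {n l m L : ℝ} {t : ℕ} (hn : 1 ≤ n) (hL0 : 0 ≤ L)
    (hlog : Real.log (n + 1) ≤ m)
    (hL : 1 / 2 * Real.exp (n * (l - 1)) ≤ L * ((n + 1) ^ t * n ^ t)) :
    n * (l - 1) - 1 - 2 * t * m ≤ Real.log L := by
  have hn0 : 0 < n := by linarith
  have hLpos : 0 < L := by
    by_contra h
    push Not at h
    have h0 : L = 0 := le_antisymm h hL0
    rw [h0, zero_mul] at hL
    have := Real.exp_pos (n * (l - 1))
    linarith
  have hlog2 : Real.log n ≤ m := (Real.log_le_log hn0 (by linarith)).trans hlog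
  have h1 := Real.log_le_log (by positivity) hL
  rw [Real.log_mul (by norm_num) (Real.exp_pos _).ne', Real.log_exp,
    Real.log_mul hLpos.ne' (by positivity), Real.log_mul (by positivity) (by positivity),
    Real.log_pow, Real.log_pow] at h1
  have h2 : -1 ≤ Real.log (1 / 2 : ℝ) := by
    rw [one_div, Real.log_inv]
    have := Real.log_two_lt_d9
    linarith
  have h3 : (t : ℝ) * Real.log (n + 1) ≤ t * m :=
    mul_le_mul_of_nonneg_left hlog (Nat.cast_nonneg _)
  have h4 : (t : ℝ) * Real.log n ≤ t * m :=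
    mul_le_mul_of_nonneg_left hlog2 (Nat.cast_nonneg _)
  linarith

/-- The last estimate. -/
theorem final_num {n t l ε C Y : ℝ} {K g : ℕ} (hε : 0 < ε)
    (hn : 0 < n) (ht : 0 < t)
    (htl : t * (1 + l) ≤ 2 * n / C) (hC : 0 < C) (hnC : C ≤ n)
    (hC1 : 4 * ((g : ℝ) + 2 * (K + 2)) ≤ ε * C) (hC2 : 2 ≤ ε * C)
    (hY : n * (l - 1) - 1 - 2 * t * ((K + 2) * (1 + l)) ≤ Y) :
    (n + g * t) * (l - 1 - ε) ≤ Y := by
  have hg0 : (0 : ℝ) ≤ g := Nat.cast_nonneg g
  refine le_trans ?_ hY
  have h1 : g * t * (l - 1 - ε) ≤ g * t * (1 + l) := by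
    apply mul_le_mul_of_nonneg_left _ (by positivity)
    linarith
  have h7 : ((g : ℝ) + 2 * (K + 2)) * (t * (1 + l)) ≤
      ((g : ℝ) + 2 * (K + 2)) * (2 * n / C) := mul_le_mul_of_nonneg_left htl (by positivity)
  have h8 : ((g : ℝ) + 2 * (K + 2)) * (2 * n / C) ≤ ε * n / 2 := by
    rw [← mul_div_assoc, div_le_div_iff₀ hC (by norm_num)]
    have := mul_le_mul_of_nonneg_right hC1 hn.le
    linarith
  have h9 : 1 ≤ ε * n / 2 := by
    have := mul_le_mul_of_nonneg_left hnC hε.le
    linarith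
  linarith

end Pool.Agent.Helper64.Sharp
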