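import Pool.Agent.Helper64.Sharp.UpperE
import Pool.Agent.Helper64.Sharp.LowNum

/-!
# The number of cycles: upper bound with the right constant
-/

set_option autoImplicit false

namespace Pool.Agent.Helper64.Sharp

open SimpleGraph Finset Filter Pool.Agent.Helper72.Cyc Pool.Agent.Helper64.Cyc

open scoped Classical in
lemma exists_next_inj {V : Type*} {G : SimpleGraph V} {k : ℕ} (hk : 3 ≤ k) (H : G.Subgraph)
    (hH : Nonempty (cycleGraph k ≃g H.coe)) :
    ∃ nx : V → V, (∀ v, nx v = v ∨ G.Adj v (nx v)) ∧ (∀ v, v ∈ H.verts ↔ nx v ≠ v) ∧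
      (∀ a b, H.Adj a b ↔ a ≠ b ∧ (nx a = b ∨ nx b = a)) ∧ Function.Injective nx := by
  obtain ⟨e⟩ := hH
  obtain ⟨m, rfl⟩ : ∃ m, k = m + 3 := ⟨k - 3, by omega⟩
  set nx : V → V := fun v => if h : v ∈ H.verts then (e (e.symm ⟨v, h⟩ + 1) : V) else v with hnx
  have h1 : ∀ v (h : v ∈ H.verts), nx v = (e (e.symm ⟨v, h⟩ + 1) : V) := by
    intro v h; simp only [hnx]; rw [dif_pos h]
  have h2 : ∀ v, v ∉ H.verts → nx v = v := by
    intro v h; simp only [hnx]; rw [dif_neg h]
  have h3 : ∀ v (h : v ∈ H.verts), H.Adj v (nx v) := by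
    intro v h
    rw [h1 v h]
    have hadj : (cycleGraph (m + 3)).Adj (e.symm ⟨v, h⟩) (e.symm ⟨v, h⟩ + 1) := by
      rw [cyc_adj_iff]; left; rfl
    have := e.map_rel_iff.2 hadj
    rw [RelIso.apply_symm_apply] at this
    exact this
  have h4 : ∀ v (h : v ∈ H.verts), nx v ∈ H.verts := fun v h => H.edge_vert (h3 v h).symm
  refine ⟨nx, ?_, ?_, ?_, ?_⟩
  · intro v
    by_cases h : v ∈ H.verts
    · right; exact H.adj_sub (h3 v h)
    · left; exact h2 v h
  · intro v
    constructor
    · intro h hv
      have := h3 v h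
      rw [hv] at this
      exact (H.adj_sub this).ne rfl
    · intro h
      by_contra hv
      exact h (h2 v hv)
  · intro a b
    constructor
    · intro hab
      refine ⟨(H.adj_sub hab).ne, ?_⟩
      have ha := H.edge_vert hab
      have hb := H.edge_vert hab.symm
      have hab' : H.coe.Adj ⟨a, ha⟩ ⟨b, hb⟩ := hab
      rw [← e.symm.map_rel_iff, cyc_adj_iff] at hab'
      rcases hab' with h | h
      · left
        rw [h1 a ha]
        have : e.symm ⟨a, ha⟩ + 1 = e.symm ⟨b, hb⟩ := h
        rw [this, RelIso.apply_symm_apply]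
      · right
        rw [h1 b hb]
        have : e.symm ⟨b, hb⟩ + 1 = e.symm ⟨a, ha⟩ := h
        rw [this, RelIso.apply_symm_apply]
    · rintro ⟨hne, h | h⟩
      · have ha : a ∈ H.verts := by
          by_contra hc
          exact hne ((h2 a hc).symm.trans h)
        rw [← h]; exact h3 a ha
      · have hb : b ∈ H.verts := by
          by_contra hc
          exact hne ((h2 b hc).symm.trans h).symm
        rw [← h]; exact (h3 b hb).symm
  · intro a b hab
    by_cases ha : a ∈ H.verts
    · by_cases hb : b ∈ H.verts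
      · rw [h1 a ha, h1 b hb] at hab
        have h5 := e.injective (Subtype.ext hab)
        have h6 := e.symm.injective (add_right_cancel h5)
        exact congrArg Subtype.val h6
      · exfalso
        apply hb
        have := h4 a ha
        rw [hab, h2 b hb] at this
        exact this
    · by_cases hb : b ∈ H.verts
      · exfalso
        apply ha
        have := h4 b hb
        rw [← hab, h2 a ha] at this
        exact this
      · rw [h2 a ha, h2 b hb] at hab
        exact hab

open scoped Classical in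
lemma numCycles_le_BM {V : Type*} [Fintype V] (G : SimpleGraph V) :
    numCycles G ≤ (BM (fun v => insert v (G.neighborFinset v)) univ univ).card := by
  set S : Finset (Σ _ : ℕ, G.Subgraph) := (Finset.Icc 3 (Fintype.card V)).sigma
    (fun k => {H : G.Subgraph | Nonempty (cycleGraph k ≃g H.coe)}) with hSdef
  have hS : S.card = numCycles G := by
    rw [hSdef, Finset.card_sigma]
    unfold numCycles
    apply Finset.sum_congr rfl
    intro k _
    rw [SimpleGraph.copyCount]
  have key : ∀ p ∈ S, ∃ nx : V → V, (∀ v, nx v = v ∨ G.Adj v (nx v)) ∧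
      (∀ v, v ∈ p.2.verts ↔ nx v ≠ v) ∧
      (∀ a b, p.2.Adj a b ↔ a ≠ b ∧ (nx a = b ∨ nx b = a)) ∧ Function.Injective nx := by
    intro p hp
    rw [hSdef, Finset.mem_sigma, Finset.mem_Icc, Finset.mem_filter] at hp
    exact exists_next_inj hp.1.1 p.2 hp.2.2
  have : Nonempty (V → V) := ⟨id⟩
  choose! nx hnx1 hnx2 hnx3 hnx4 using key
  rw [← hS]
  apply Finset.card_le_card_of_injOn (fun p v => some (nx p v))
  · intro p hp
    rw [Finset.mem_coe, mem_BM]
    refine ⟨fun a ha => absurd (Finset.mem_univ a) ha, ?_, ?_⟩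
    · intro v _
      refine ⟨nx p v, ?_, rfl⟩
      rw [Finset.mem_inter, Finset.mem_insert, mem_neighborFinset]
      exact ⟨hnx1 p hp v, Finset.mem_univ _⟩
    · intro a _ a' _ h
      exact hnx4 p hp (Option.some_injective _ h)
  · intro p hp q hq hpq
    have hpq' : nx p = nx q := by
      funext v
      exact Option.some_injective _ (congrFun hpq v)
    have hsub : p.2 = q.2 := by
      apply Subgraph.ext
      · ext v
        rw [hnx2 p hp v, hnx2 q hq v, hpq']
      · ext a b
        rw [hnx3 p hp a b, hnx3 q hq a b, hpq']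
    have hk : p.1 = q.1 := by
      rw [Finset.mem_coe, hSdef, Finset.mem_sigma, Finset.mem_Icc, Finset.mem_filter] at hp hq
      obtain ⟨e1⟩ := hp.2.2
      obtain ⟨e2⟩ := hq.2.2
      have c1 := Nat.card_congr e1.toEquiv
      have c2 := Nat.card_congr e2.toEquiv
      rw [Nat.card_eq_fintype_card, Fintype.card_fin] at c1 c2
      rw [c1, c2, hsub]
    exact Sigma.ext hk (heq_of_eq hsub)

open scoped Classical in
lemma log_numCycles_le {V : Type*} [Fintype V] (G : SimpleGraph V) :
    Real.log (numCycles G : ℝ) ≤ ∑ v, phi (G.degree v + 1) := by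
  rcases Nat.eq_zero_or_pos (numCycles G) with h | h
  · rw [h, Nat.cast_zero, Real.log_zero]
    exact Finset.sum_nonneg (fun v _ => phi_nonneg _)
  · have h1 : (numCycles G : ℝ) ≤
        ((BM (fun v => insert v (G.neighborFinset v)) univ univ).card : ℝ) := by
      exact_mod_cast numCycles_le_BM G
    refine (Real.log_le_log (by exact_mod_cast h) h1).trans ?_
    refine (log_card_BM rfl).trans (le_of_eq ?_)
    apply Finset.sum_congr rfl
    intro v _
    rw [Finset.inter_univ, Finset.card_insert_of_notMem (by simp),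
      G.card_neighborFinset_eq_degree]

/-- A tangent line bound for `φ`. -/
lemma phi_tangent {ε : ℝ} (hε : 0 < ε) : ∃ K : ℝ, 1 ≤ K ∧ ∀ D : ℝ, K ≤ D → ∀ r : ℕ, 1 ≤ r →
    phi r ≤ Real.log D - 1 + ε + ((r : ℝ) - D) / D := by
  obtain ⟨R, hR⟩ : ∃ R : ℕ, ∀ r : ℕ, R ≤ r → (1 + Real.log r) / r ≤ ε := by
    have h1 : Tendsto (fun x : ℝ => Real.log x / x) atTop (nhds 0) := by
      have := Real.isLittleO_log_id_atTop.tendsto_div_nhds_zero
      simpa using this
    have h2 : Tendsto (fun x : ℝ => 1 / x + Real.log x / x) atTop (nhds 0) := by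
      have h3 : Tendsto (fun x : ℝ => 1 / x) atTop (nhds 0) := by
        simpa using tendsto_inv_atTop_zero (𝕜 := ℝ)
      simpa using h3.add h1
    have h3 := (h2.comp tendsto_natCast_atTop_atTop).eventually (ge_mem_nhds hε)
    obtain ⟨R, hR⟩ := eventually_atTop.1 h3
    refine ⟨R, fun r hr => ?_⟩
    have := hR r hr
    simp only [Function.comp] at this
    rwa [← add_div] at this
  refine ⟨Real.exp 2 * (R + 1), ?_, ?_⟩
  · have h1 : (1 : ℝ) ≤ Real.exp 2 := Real.one_le_exp (by norm_num)
    have h2 : (0 : ℝ) ≤ R := Nat.cast_nonneg _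
    nlinarith
  intro D hD r hr
  have hD0 : 0 < D := lt_of_lt_of_le (by positivity) hD
  have hr0 : (1 : ℝ) ≤ r := by exact_mod_cast hr
  rcases le_or_gt R r with h | h
  · have h1 := phi_upper r hr
    have h2 := hR r h
    have h3 : Real.log r ≤ Real.log D + ((r : ℝ) - D) / D := by
      have h4 := Real.log_le_sub_one_of_pos (show 0 < (r : ℝ) / D by positivity)
      rw [Real.log_div (by positivity) hD0.ne'] at h4
      rw [sub_div, div_self hD0.ne']
      linarith
    linarith
  · have h1 : phi r ≤ Real.log r := by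
      unfold phi
      rw [div_le_iff₀ (by linarith), mul_comm, ← Real.log_pow]
      apply Real.log_le_log (by exact_mod_cast Nat.factorial_pos r)
      exact_mod_cast Nat.factorial_le_pow r
    have h2 : Real.log r ≤ Real.log D - 2 := by
      have h3 : Real.exp 2 * r ≤ D := by
        refine le_trans ?_ hD
        apply mul_le_mul_of_nonneg_left _ (Real.exp_pos _).le
        have : (r : ℝ) + 1 ≤ R := by exact_mod_cast h
        linarith
      have h4 := Real.log_le_log (by positivity) h3
      rw [Real.log_mul (Real.exp_pos _).ne' (by positivity), Real.log_exp] at h4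
      linarith
    have h3 : -1 ≤ ((r : ℝ) - D) / D := by
      rw [le_div_iff₀ hD0]; linarith
    linarith

/-- The number of cycles in terms of the number of edges. -/
lemma log_maxCycles_le {ε : ℝ} (hε : 0 < ε) : ∃ K : ℝ, 1 ≤ K ∧ ∀ n g : ℕ, 1 ≤ n → ∀ D : ℝ,
    K ≤ D → 2 * (maxEdges n g : ℝ) / n + 1 ≤ D →
    Real.log (maxCycles n g : ℝ) ≤ n * (Real.log D - 1 + ε) := by
  classical
  obtain ⟨K, hK1, hK⟩ := phi_tangent hε
  refine ⟨K, hK1, ?_⟩
  intro n g hn D hD hD2
  have hD0 : 0 < D := by linarith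
  have hn0 : (0 : ℝ) < n := by exact_mod_cast hn
  obtain ⟨G, hG, hcard⟩ := exists_maxCycles n g
  have h1 := log_numCycles_le G
  have hE : G.edgeFinset.card ≤ maxEdges n g := by
    apply card_edges_le_maxEdges hG
    rw [Fintype.card_fin]
  have hsum : ∑ y, (G.degree y : ℝ) = 2 * G.edgeFinset.card := by
    have := G.sum_degrees_eq_twice_card_edges
    exact_mod_cast this
  have h2 : ∑ v, phi (G.degree v + 1) ≤
      ∑ v : Fin n, (Real.log D - 1 + ε + (((G.degree v + 1 : ℕ) : ℝ) - D) / D) := by
    apply Finset.sum_le_sum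
    intro v _
    exact hK D hD _ (by omega)
  have h3 : ∑ v : Fin n, (Real.log D - 1 + ε + (((G.degree v + 1 : ℕ) : ℝ) - D) / D) =
      n * (Real.log D - 1 + ε) + (2 * G.edgeFinset.card + n - n * D) / D := by
    rw [Finset.sum_add_distrib, ← Finset.sum_div, Finset.sum_sub_distrib, Finset.sum_const,
      Finset.sum_const, Finset.card_univ, Fintype.card_fin]
    simp only [nsmul_eq_mul]
    push_cast
    rw [Finset.sum_add_distrib, hsum, Finset.sum_const, Finset.card_univ, Fintype.card_fin]
    simp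
  have h4 : (2 * (G.edgeFinset.card : ℝ) + n - n * D) / D ≤ 0 := by
    apply div_nonpos_of_nonpos_of_nonneg _ hD0.le
    have e1 : (G.edgeFinset.card : ℝ) ≤ maxEdges n g := by exact_mod_cast hE
    rw [← le_sub_iff_add_le, div_le_iff₀ hn0] at hD2
    linarith
  have h5 : Real.log (maxCycles n g : ℝ) ≤ ∑ v, phi (G.degree v + 1) := by
    rw [← hcard]
    convert h1
  linarith

/-- The upper bound for girth at least `2k + 2` (`r = 2`) or `2k + 1` (`r = 1`). -/
theorem upper_sharp {k g : ℕ} {r : ℝ} (hk : 1 ≤ k) (hr : Par g k r) {ε : ℝ} (hε : 0 < ε) :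
    ∀ᶠ n : ℕ in atTop, Real.log (maxCycles n g : ℝ) ≤
      n * (1 / (k : ℝ) * Real.log ((n : ℝ) / r) - 1 + ε) := by
  obtain ⟨K, hK1, hK⟩ := log_maxCycles_le (show 0 < ε / 2 by positivity)
  obtain ⟨M, hM⟩ : ∃ M : ℝ, M = max K (max 2 (6 / ε)) := ⟨_, rfl⟩
  have hMK : K ≤ M := by rw [hM]; exact le_max_left _ _
  have hM2 : 2 ≤ M := by rw [hM]; exact (le_max_left _ _).trans (le_max_right _ _)
  have hMε : 6 / ε ≤ M := by rw [hM]; exact (le_max_right _ _).trans (le_max_right _ _)
  have hM1 : 1 ≤ M := hK1.trans hMK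
  have hk0 : (0 : ℝ) < k := by exact_mod_cast hk
  have hlarge : ∀ᶠ n : ℕ in atTop, Real.log (M + 1) ≤ 1 / (k : ℝ) * Real.log ((n : ℝ) / r) := by
    have h1 : Tendsto (fun n : ℕ => 1 / (k : ℝ) * Real.log ((n : ℝ) / r)) atTop atTop := by
      apply Tendsto.const_mul_atTop (by positivity)
      apply Real.tendsto_log_atTop.comp
      exact tendsto_natCast_atTop_atTop.atTop_div_const hr.pos
    exact h1.eventually_ge_atTop _
  filter_upwards [hlarge, eventually_ge_atTop 1] with n hn hn1
  have hn0 : (0 : ℝ) < n := by exact_mod_cast hn1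
  obtain ⟨x, hx⟩ : ∃ x : ℝ, x = 2 * (maxEdges n g : ℝ) / n := ⟨_, rfl⟩
  rcases le_or_gt x M with h | h
  · refine (hK n g hn1 (M + 1) (by linarith) (by rw [← hx]; linarith)).trans ?_
    apply mul_le_mul_of_nonneg_left _ hn0.le
    linarith
  · refine (hK n g hn1 (x + 1) (by linarith) (by rw [← hx])).trans ?_
    apply mul_le_mul_of_nonneg_left _ hn0.le
    have hx0 : 0 < x := by linarith
    have hxE : (maxEdges n g : ℝ) = x * n / 2 := by rw [hx]; field_simp
    have hx2 : 2 < x := by linarith
    have hE : n ≤ maxEdges n g := by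
      have : (n : ℝ) ≤ maxEdges n g := by rw [hxE]; nlinarith
      exact_mod_cast this
    have h1 := ex_upper hr n hn1 hE
    have h2 : (n : ℝ) / maxEdges n g = 2 / x := by rw [hxE]; field_simp
    rw [← hx, h2] at h1
    have h3 : Real.log x ≤ 1 / (k : ℝ) * Real.log ((n : ℝ) / r) + 2 / x := by
      have := mul_le_mul_of_nonneg_left h1 (show 0 ≤ 1 / (k : ℝ) by positivity)
      have e : 1 / (k : ℝ) * (k * (Real.log x - 2 / x)) = Real.log x - 2 / x := by field_simp
      rw [e] at this
      linarith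
    have h4 : Real.log (x + 1) ≤ Real.log x + 1 / x := by
      have h5 := Real.log_le_sub_one_of_pos (show 0 < (x + 1) / x by positivity)
      rw [Real.log_div (by positivity) hx0.ne'] at h5
      have h6 : (x + 1) / x - 1 = 1 / x := by field_simp; ring
      rw [h6] at h5
      linarith
    have h5 : 3 / x ≤ ε / 2 := by
      rw [div_le_iff₀ hx0]
      rw [div_le_iff₀ hε] at hMε
      nlinarith
    have h6 : 3 / x = 2 / x + 1 / x := by ring
    linarith

end Pool.Agent.Helper64.Sharp
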