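import Pool.Agent.Helper64.Sharp.Lower2
import Pool.Agent.Helper64.Sharp.UpperC

/-!
# From logarithms to the quotient `c(n,g)^(1/n) / n^(1/k)`
-/

set_option autoImplicit false

namespace Pool.Agent.Helper64.Sharp

open Filter Topology Pool.Agent.Helper72.Cyc Pool.Agent.Helper64.Cyc

/-- The quotient `c(n,g)^(1/n) / n^(1/k)`. -/
noncomputable def quo (g k n : ℕ) : ℝ :=
  (maxCycles n g : ℝ) ^ ((1 : ℝ) / n) / (n : ℝ) ^ ((1 : ℝ) / k)

lemma quo_eq {g k n : ℕ} (hn : 1 ≤ n) (hc : 1 ≤ maxCycles n g) :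
    quo g k n = Real.exp (1 / (n : ℝ) * Real.log (maxCycles n g) -
      1 / (k : ℝ) * Real.log n) := by
  have hn0 : (0 : ℝ) < n := by exact_mod_cast hn
  have hc0 : (0 : ℝ) < maxCycles n g := by exact_mod_cast hc
  unfold quo
  rw [Real.exp_sub, Real.rpow_def_of_pos hc0, Real.rpow_def_of_pos hn0]
  congr 1
  · rw [mul_comm]
  · rw [mul_comm]

lemma eventually_one_le {g : ℕ} (hg : 3 ≤ g) : ∀ᶠ n : ℕ in atTop, 1 ≤ maxCycles n g := by
  filter_upwards [eventually_ge_atTop g] with n hn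
  exact one_le_maxCycles hg hn

lemma const_eq {k : ℕ} {r : ℝ} (hr : 0 < r) :
    Real.exp (-(1 / (k : ℝ) * Real.log r) - 1) = r ^ (-(1 : ℝ) / k) / Real.exp 1 := by
  rw [Real.exp_sub, Real.rpow_def_of_pos hr]
  congr 2
  ring

/-- Upper bound for the quotient. -/
theorem quo_upper {k g : ℕ} {r : ℝ} (hk : 1 ≤ k) (hg : 3 ≤ g) (hr : Par g k r) {δ : ℝ}
    (hδ : 0 < δ) : ∀ᶠ n : ℕ in atTop, quo g k n ≤ r ^ (-(1 : ℝ) / k) / Real.exp 1 + δ := by
  have hr0 := hr.pos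
  have h1 : Tendsto (fun ε : ℝ => Real.exp (-(1 / (k : ℝ) * Real.log r) - 1 + ε)) (𝓝[>] 0)
      (𝓝 (r ^ (-(1 : ℝ) / k) / Real.exp 1)) := by
    have h2 : Continuous (fun ε : ℝ => Real.exp (-(1 / (k : ℝ) * Real.log r) - 1 + ε)) := by
      fun_prop
    have h3 := h2.tendsto 0
    simp only [add_zero] at h3
    rw [const_eq hr0] at h3
    exact h3.mono_left nhdsWithin_le_nhds
  obtain ⟨ε, hε1, hε2⟩ := ((h1.eventually (ge_mem_nhds (show r ^ (-(1 : ℝ) / k) / Real.exp 1 <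
    r ^ (-(1 : ℝ) / k) / Real.exp 1 + δ by linarith))).and
    (self_mem_nhdsWithin : Set.Ioi (0 : ℝ) ∈ 𝓝[>] 0)).exists
  filter_upwards [upper_sharp hk hr hε2, eventually_one_le hg, eventually_ge_atTop 1]
    with n hn hc hn1
  have hn0 : (0 : ℝ) < n := by exact_mod_cast hn1
  rw [quo_eq hn1 hc]
  refine le_trans ?_ hε1
  apply Real.exp_le_exp.2
  have h4 := mul_le_mul_of_nonneg_left hn (show 0 ≤ 1 / (n : ℝ) by positivity)
  have h5 : 1 / (n : ℝ) * (n * (1 / (k : ℝ) * Real.log ((n : ℝ) / r) - 1 + ε)) =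
      1 / (k : ℝ) * Real.log ((n : ℝ) / r) - 1 + ε := by field_simp
  rw [h5, Real.log_div hn0.ne' hr0.ne'] at h4
  linarith

/-- Lower bound for the quotient. -/
theorem quo_lower {k : ℕ} (hk : k = 2 ∨ k = 3 ∨ k = 5) {δ : ℝ}
    (hδ : 0 < δ) : ∀ᶠ n : ℕ in atTop,
      (2 : ℝ) ^ (-(1 : ℝ) / k) / Real.exp 1 - δ ≤ quo (2 * k + 2) k n := by
  have h1 : Tendsto (fun ε : ℝ => Real.exp (-(1 / (k : ℝ) * Real.log 2) - 1 - ε)) (𝓝[>] 0)
      (𝓝 ((2 : ℝ) ^ (-(1 : ℝ) / k) / Real.exp 1)) := by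
    have h2 : Continuous (fun ε : ℝ => Real.exp (-(1 / (k : ℝ) * Real.log 2) - 1 - ε)) := by
      fun_prop
    have h3 := h2.tendsto 0
    simp only [sub_zero] at h3
    rw [const_eq (by norm_num)] at h3
    exact h3.mono_left nhdsWithin_le_nhds
  obtain ⟨ε, hε1, hε2⟩ := ((h1.eventually (le_mem_nhds (show
    (2 : ℝ) ^ (-(1 : ℝ) / k) / Real.exp 1 - δ <
    (2 : ℝ) ^ (-(1 : ℝ) / k) / Real.exp 1 by linarith))).and
    (self_mem_nhdsWithin : Set.Ioi (0 : ℝ) ∈ 𝓝[>] 0)).exists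
  filter_upwards [lower_sharp hk hε2, eventually_one_le (g := 2 * k + 2) (by omega),
    eventually_ge_atTop 1] with n hn hc hn1
  have hn0 : (0 : ℝ) < n := by exact_mod_cast hn1
  rw [quo_eq hn1 hc]
  refine hε1.trans ?_
  apply Real.exp_le_exp.2
  have h4 := mul_le_mul_of_nonneg_left hn (show 0 ≤ 1 / (n : ℝ) by positivity)
  have h5 : 1 / (n : ℝ) * (n * (1 / (k : ℝ) * Real.log ((n : ℝ) / 2) - 1 - ε)) =
      1 / (k : ℝ) * Real.log ((n : ℝ) / 2) - 1 - ε := by field_simp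
  rw [h5, Real.log_div hn0.ne' (by norm_num)] at h4
  linarith

/-- The limit for girth `2k + 2`. -/
theorem quo_tendsto {k : ℕ} (hk : k = 2 ∨ k = 3 ∨ k = 5) :
    Tendsto (quo (2 * k + 2) k) atTop (𝓝 ((2 : ℝ) ^ (-(1 : ℝ) / k) / Real.exp 1)) := by
  rw [tendsto_order]
  constructor
  · intro a ha
    filter_upwards [quo_lower hk (show 0 < ((2 : ℝ) ^ (-(1 : ℝ) / k) / Real.exp 1 - a) / 2 by
      linarith)] with n hn
    linarith
  · intro a ha
    filter_upwards [quo_upper (k := k) (g := 2 * k + 2) (r := 2) (by omega) (by omega)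
      (Or.inl ⟨by omega, rfl⟩) (show 0 < (a - (2 : ℝ) ^ (-(1 : ℝ) / k) / Real.exp 1) / 2 by
      linarith)] with n hn
    linarith

/-- Monotonicity in the girth. -/
lemma quo_anti {g g' k : ℕ} (h : g' ≤ g) (n : ℕ) : quo g k n ≤ quo g' k n := by
  unfold quo
  apply div_le_div_of_nonneg_right _ (Real.rpow_nonneg (Nat.cast_nonneg _) _)
  apply Real.rpow_le_rpow (Nat.cast_nonneg _) _ (by positivity)
  exact_mod_cast maxCycles_anti n h

end Pool.Agent.Helper64.Sharp
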