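import Pool.Agent.Helper64.Sharp.Final
import Pool.Agent.Helper64.Cyc.ExFinal

/-!
# The quotient of `c(n,g)^(1/n)` and `ex(n,g) / n`
-/

set_option autoImplicit false

namespace Pool.Agent.Helper64.Sharp

open Filter Topology Pool.Agent.Helper72.Cyc Pool.Agent.Helper64.Cyc

/-- The quotient `c(n,g)^(1/n) / (ex(n,g) / n)`. -/
noncomputable def quoE (g n : ℕ) : ℝ :=
  (maxCycles n g : ℝ) ^ ((1 : ℝ) / n) / ((maxEdges n g : ℝ) / n)

/-- The average degree tends to infinity. -/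
lemma avg_tendsto {g : ℕ} (hg : 3 ≤ g) :
    Tendsto (fun n : ℕ => 2 * (maxEdges n g : ℝ) / n) atTop atTop := by
  obtain ⟨α, hα, h⟩ := ex_lower_all
  have hg0 : (0 : ℝ) < g := by exact_mod_cast (by omega : 0 < g)
  have h1 : Tendsto (fun n : ℕ => α / g * Real.log ((n : ℝ) / g)) atTop atTop := by
    apply Tendsto.const_mul_atTop (by positivity)
    apply Real.tendsto_log_atTop.comp
    exact tendsto_natCast_atTop_atTop.atTop_div_const hg0
  apply tendsto_atTop_mono' _ _ h1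
  filter_upwards [eventually_ge_atTop (2 * g)] with n hn
  have hn0 : (0 : ℝ) < n := by exact_mod_cast (by omega : 0 < n)
  have h2 := h g n hg (by omega)
  have h3 : α / g * Real.log ((n : ℝ) / g) ≤ Real.log ((maxEdges n g : ℝ) / n) := by
    have e : α * ((n : ℝ) / g) * Real.log ((n : ℝ) / g) =
        n * (α / g * Real.log ((n : ℝ) / g)) := by ring
    rw [e] at h2
    exact le_of_mul_le_mul_left h2 hn0
  refine h3.trans ?_
  have h4 : Real.log ((maxEdges n g : ℝ) / n) ≤ (maxEdges n g : ℝ) / n :=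
    Real.log_le_self (by positivity)
  have h5 : (0 : ℝ) ≤ (maxEdges n g : ℝ) / n := by positivity
  have h6 : 2 * (maxEdges n g : ℝ) / n = 2 * ((maxEdges n g : ℝ) / n) := by ring
  rw [h6]
  linarith

lemma quoE_eq {g n : ℕ} (hn : 1 ≤ n) (hc : 1 ≤ maxCycles n g)
    (hx : 0 < 2 * (maxEdges n g : ℝ) / n) :
    quoE g n = Real.exp (1 / (n : ℝ) * Real.log (maxCycles n g) -
      Real.log (2 * (maxEdges n g : ℝ) / n) + Real.log 2) := by
  have hn0 : (0 : ℝ) < n := by exact_mod_cast hn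
  have hc0 : (0 : ℝ) < maxCycles n g := by exact_mod_cast hc
  unfold quoE
  rw [Real.exp_add, Real.exp_sub, Real.exp_log hx, Real.exp_log (by norm_num),
    Real.rpow_def_of_pos hc0, mul_comm (Real.log _)]
  have hE : (maxEdges n g : ℝ) ≠ 0 := by
    intro h0
    rw [h0] at hx
    simp at hx
  field_simp

lemma const_eqE : Real.exp (Real.log 2 - 1) = 2 / Real.exp 1 := by
  rw [Real.exp_sub, Real.exp_log (by norm_num)]

/-- Upper bound for the quotient by the number of edges. -/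
theorem quoE_upper {g : ℕ} (hg : 3 ≤ g) {δ : ℝ} (hδ : 0 < δ) :
    ∀ᶠ n : ℕ in atTop, quoE g n ≤ 2 / Real.exp 1 + δ := by
  have h1 : Tendsto (fun ε : ℝ => Real.exp (Real.log 2 - 1 + 2 * ε)) (𝓝[>] 0)
      (𝓝 (2 / Real.exp 1)) := by
    have h2 : Continuous (fun ε : ℝ => Real.exp (Real.log 2 - 1 + 2 * ε)) := by
      fun_prop
    have h3 := h2.tendsto 0
    simp only [mul_zero, add_zero] at h3
    rw [const_eqE] at h3
    exact h3.mono_left nhdsWithin_le_nhds
  obtain ⟨ε, hε1, hε2⟩ := ((h1.eventually (ge_mem_nhds (show 2 / Real.exp 1 <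
    2 / Real.exp 1 + δ by linarith))).and
    (self_mem_nhdsWithin : Set.Ioi (0 : ℝ) ∈ 𝓝[>] 0)).exists
  have hε0 : 0 < ε := hε2
  obtain ⟨K, hK1, hK⟩ := log_maxCycles_le hε0
  filter_upwards [(avg_tendsto hg).eventually_ge_atTop (max K (1 / ε)), eventually_one_le hg,
    eventually_ge_atTop 1] with n hn hc hn1
  have hn0 : (0 : ℝ) < n := by exact_mod_cast hn1
  obtain ⟨x, hx⟩ : ∃ x : ℝ, x = 2 * (maxEdges n g : ℝ) / n := ⟨_, rfl⟩
  rw [← hx] at hn
  have hxK : K ≤ x := (le_max_left _ _).trans hn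
  have hxε : 1 / ε ≤ x := (le_max_right _ _).trans hn
  have hx0 : 0 < x := by linarith
  rw [quoE_eq hn1 hc (by rw [← hx]; exact hx0), ← hx]
  refine le_trans ?_ hε1
  apply Real.exp_le_exp.2
  have h2 := hK n g hn1 (x + 1) (by linarith) (by rw [← hx])
  have h4 := mul_le_mul_of_nonneg_left h2 (show 0 ≤ 1 / (n : ℝ) by positivity)
  have h5 : 1 / (n : ℝ) * (n * (Real.log (x + 1) - 1 + ε)) = Real.log (x + 1) - 1 + ε := by
    field_simp
  rw [h5] at h4
  have h6 : Real.log (x + 1) ≤ Real.log x + 1 / x := by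
    have h7 := Real.log_le_sub_one_of_pos (show 0 < (x + 1) / x by positivity)
    rw [Real.log_div (by positivity) hx0.ne'] at h7
    have h8 : (x + 1) / x - 1 = 1 / x := by field_simp; ring
    rw [h8] at h7
    linarith
  have h7 : 1 / x ≤ ε := by
    rw [div_le_iff₀ hx0]
    rw [div_le_iff₀ hε0] at hxε
    linarith
  linarith

/-- Lower bound for the quotient by the number of edges. -/
theorem quoE_lower {k : ℕ} (hk : k = 2 ∨ k = 3 ∨ k = 5) {δ : ℝ} (hδ : 0 < δ) :
    ∀ᶠ n : ℕ in atTop, 2 / Real.exp 1 - δ ≤ quoE (2 * k + 2) n := by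
  have hk0 : (0 : ℝ) < k := by exact_mod_cast (by omega : 0 < k)
  have hk1 : (1 : ℝ) ≤ k := by exact_mod_cast (by omega : 1 ≤ k)
  have h1 : Tendsto (fun ε : ℝ => Real.exp (Real.log 2 - 1 - 2 * ε)) (𝓝[>] 0)
      (𝓝 (2 / Real.exp 1)) := by
    have h2 : Continuous (fun ε : ℝ => Real.exp (Real.log 2 - 1 - 2 * ε)) := by
      fun_prop
    have h3 := h2.tendsto 0
    simp only [mul_zero, sub_zero] at h3
    rw [const_eqE] at h3
    exact h3.mono_left nhdsWithin_le_nhds
  obtain ⟨ε, hε1, hε2⟩ := ((h1.eventually (le_mem_nhds (show 2 / Real.exp 1 - δ <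
    2 / Real.exp 1 by linarith))).and
    (self_mem_nhdsWithin : Set.Ioi (0 : ℝ) ∈ 𝓝[>] 0)).exists
  have hε0 : 0 < ε := hε2
  filter_upwards [(avg_tendsto (g := 2 * k + 2) (by omega)).eventually_ge_atTop (max 2 (2 / ε)),
    eventually_one_le (g := 2 * k + 2) (by omega), eventually_ge_atTop 1,
    lower_sharp hk hε0] with n hn hc hn1 hlow
  have hn0 : (0 : ℝ) < n := by exact_mod_cast hn1
  obtain ⟨x, hx⟩ : ∃ x : ℝ, x = 2 * (maxEdges n (2 * k + 2) : ℝ) / n := ⟨_, rfl⟩
  rw [← hx] at hn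
  have hx2 : 2 ≤ x := (le_max_left _ _).trans hn
  have hxε : 2 / ε ≤ x := (le_max_right _ _).trans hn
  have hx0 : 0 < x := by linarith
  rw [quoE_eq hn1 hc (by rw [← hx]; exact hx0), ← hx]
  refine hε1.trans ?_
  apply Real.exp_le_exp.2
  have h4 := mul_le_mul_of_nonneg_left hlow (show 0 ≤ 1 / (n : ℝ) by positivity)
  have h5 : 1 / (n : ℝ) * (n * (1 / (k : ℝ) * Real.log ((n : ℝ) / 2) - 1 - ε)) =
      1 / (k : ℝ) * Real.log ((n : ℝ) / 2) - 1 - ε := by field_simp
  rw [h5] at h4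
  have hxE : (maxEdges n (2 * k + 2) : ℝ) = x * n / 2 := by rw [hx]; field_simp
  have hE : n ≤ maxEdges n (2 * k + 2) := by
    have : (n : ℝ) ≤ maxEdges n (2 * k + 2) := by rw [hxE]; nlinarith
    exact_mod_cast this
  have h6 := ex_upper (g := 2 * k + 2) (k := k) (r := 2) (Or.inl ⟨by omega, rfl⟩) n hn1 hE
  have h7 : (n : ℝ) / maxEdges n (2 * k + 2) = 2 / x := by rw [hxE]; field_simp
  rw [← hx, h7] at h6
  have h8 : Real.log x - 2 / x ≤ 1 / (k : ℝ) * Real.log ((n : ℝ) / 2) := by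
    have := mul_le_mul_of_nonneg_left h6 (show 0 ≤ 1 / (k : ℝ) by positivity)
    have e : 1 / (k : ℝ) * (k * (Real.log x - 2 / x)) = Real.log x - 2 / x := by field_simp
    rw [e] at this
    exact this
  have h9 : 2 / x ≤ ε := by
    rw [div_le_iff₀ hx0]
    rw [div_le_iff₀ hε0] at hxε
    linarith
  linarith

theorem quoE_tendsto {k : ℕ} (hk : k = 2 ∨ k = 3 ∨ k = 5) :
    Tendsto (quoE (2 * k + 2)) atTop (𝓝 (2 / Real.exp 1)) := by
  rw [tendsto_order]
  constructor
  · intro a ha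
    filter_upwards [quoE_lower hk (show 0 < (2 / Real.exp 1 - a) / 2 by linarith)] with n hn
    linarith
  · intro a ha
    filter_upwards [quoE_upper (g := 2 * k + 2) (by omega)
      (show 0 < (a - 2 / Real.exp 1) / 2 by linarith)] with n hn
    linarith

end Pool.Agent.Helper64.Sharp
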