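import Pool.Agent.Helper64.Sharp.AlgS
import Pool.Agent.Helper64.PNT.Primes

/-!
# The sharp lower bound for all `n`
-/

set_option autoImplicit false
set_option linter.unusedSectionVars false

namespace Pool.Agent.Helper64.Sharp

open Finset SimpleGraph Filter Topology Pool.Agent.Helper72.Cyc

lemma maxCycles_mono {m n : ℕ} (h : m ≤ n) (g : ℕ) : maxCycles m g ≤ maxCycles n g := by
  obtain ⟨G, hG, hcard⟩ := exists_maxCycles m g
  rw [← hcard]
  exact numCycles_le_maxCycles hG (by rw [Fintype.card_fin]; exact h)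

lemma maxCycles_anti (n : ℕ) {g g' : ℕ} (h : g' ≤ g) : maxCycles n g ≤ maxCycles n g' := by
  obtain ⟨G, hG, hcard⟩ := exists_maxCycles n g
  rw [← hcard]
  exact numCycles_le_maxCycles (fun m f hf hadj => h.trans (hG m f hf hadj))
    (by rw [Fintype.card_fin])

/-- `θ(x)`, the proportion of vertices which are not used. -/
noncomputable def thet (g : ℕ) (x : ℝ) : ℝ := 2 * g * (x / 4) ^ (-(1 / 3) : ℝ)

lemma thet_log (g : ℕ) : Tendsto (fun x : ℝ => thet g x * Real.log (2 * x)) atTop (𝓝 0) := by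
  have h1 : Tendsto (fun x : ℝ => Real.log x / x ^ ((1 : ℝ) / 3)) atTop (𝓝 0) :=
    (isLittleO_log_rpow_atTop (by norm_num)).tendsto_div_nhds_zero
  have h2 : Tendsto (fun x : ℝ => 2 * x) atTop atTop := tendsto_id.const_mul_atTop (by norm_num)
  have h3 := (h1.comp h2).const_mul (2 * g * (8 : ℝ) ^ ((1 : ℝ) / 3))
  rw [mul_zero] at h3
  refine h3.congr' ?_
  filter_upwards [eventually_gt_atTop 0] with x hx
  simp only [Function.comp]
  unfold thet
  have e1 : (2 * x) ^ ((1 : ℝ) / 3) = (8 : ℝ) ^ ((1 : ℝ) / 3) * (x / 4) ^ ((1 : ℝ) / 3) := by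
    rw [← Real.mul_rpow (by norm_num) (by positivity)]
    congr 1
    ring
  rw [e1, Real.rpow_neg (by positivity)]
  have e2 : (0 : ℝ) < (8 : ℝ) ^ ((1 : ℝ) / 3) := by positivity
  have e3 : 0 < (x / 4) ^ ((1 : ℝ) / 3) := by positivity
  field_simp

lemma thet_tendsto (g : ℕ) : Tendsto (thet g) atTop (𝓝 0) := by
  unfold thet
  have h1 : Tendsto (fun x : ℝ => x ^ (-(1 / 3) : ℝ)) atTop (𝓝 0) :=
    tendsto_rpow_neg_atTop (by norm_num)
  have h2 : Tendsto (fun x : ℝ => x / 4) atTop atTop :=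
    tendsto_id.atTop_div_const (by norm_num)
  have h3 := (h1.comp h2).const_mul (2 * (g : ℝ))
  rw [mul_zero] at h3
  exact h3

/-- The choice of the degree. -/
lemma choose_D {k g : ℕ} (hk : 1 ≤ k) {x θ ρ η : ℝ} {p : ℕ} (hx : 32 ≤ x) (hθ0 : 0 ≤ θ)
    (hθ1 : θ ≤ 1 / 2) (hη0 : 0 < η) (hη : η ≤ 1)
    (hρ : 1 / 4 ≤ ρ) (hlim : ρ ≤ (1 - θ) / (1 + η) ^ (k - 1) - 1 / x)
    (hpx : x < p) (hp2 : (p : ℝ) ≤ (1 + η) * x) (hθ : 2 * g * (x / 4) ^ (-(1 / 3) : ℝ) ≤ θ) :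
    ∃ D : ℕ, D ≤ p ∧ ρ * x ≤ D ∧ 2 * ((D * p ^ (k - 1) : ℕ) : ℝ) ≤ (1 - θ) * (2 * x ^ k) ∧
      (1 - θ) * (2 * x ^ k) - 2 * (p : ℝ) ^ (k - 1) ≤ 2 * ((D * p ^ (k - 1) : ℕ) : ℝ) ∧
      D * p ^ (k - 1) ≤ D ^ (2 * k) ∧
      2 * ((D * p ^ (k - 1) : ℕ) : ℝ) * (1 + 2 * g / (D : ℝ) ^ ((1 : ℝ) / 3)) ≤ 2 * x ^ k := by
  have hx0 : 0 < x := by linarith
  have hp0 : (0 : ℝ) < p := by linarith
  obtain ⟨m, rfl⟩ : ∃ m, k = m + 1 := ⟨k - 1, by omega⟩
  rw [Nat.add_sub_cancel] at *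
  obtain ⟨P, hP⟩ : ∃ P : ℝ, P = (p : ℝ) ^ m := ⟨_, rfl⟩
  have hP0 : 0 < P := by rw [hP]; positivity
  obtain ⟨y, hy⟩ : ∃ y : ℝ, y = (1 - θ) * x ^ (m + 1) / P := ⟨_, rfl⟩
  have hyP : y * P = (1 - θ) * x ^ (m + 1) := by rw [hy]; field_simp
  have hy0 : 0 ≤ y := by
    rw [hy]
    apply div_nonneg _ hP0.le
    apply mul_nonneg (by linarith) (by positivity)
  -- lower bound for `y`
  have hPle : P ≤ (1 + η) ^ m * x ^ m := by
    rw [hP, ← mul_pow]
    exact pow_le_pow_left₀ hp0.le hp2 m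
  have hPge : x ^ m ≤ P := by
    rw [hP]
    exact pow_le_pow_left₀ hx0.le hpx.le m
  have hylow : (1 - θ) / (1 + η) ^ m * x ≤ y := by
    rw [hy, le_div_iff₀ hP0]
    calc (1 - θ) / (1 + η) ^ m * x * P ≤
        (1 - θ) / (1 + η) ^ m * x * ((1 + η) ^ m * x ^ m) := by
          apply mul_le_mul_of_nonneg_left hPle
          apply mul_nonneg _ hx0.le
          apply div_nonneg (by linarith) (by positivity)
      _ = (1 - θ) * x ^ (m + 1) := by
          field_simp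
          ring
  have hyup : y ≤ x := by
    rw [hy, div_le_iff₀ hP0]
    calc (1 - θ) * x ^ (m + 1) ≤ 1 * x ^ (m + 1) := by
          apply mul_le_mul_of_nonneg_right (by linarith) (by positivity)
      _ = x * x ^ m := by ring
      _ ≤ x * P := mul_le_mul_of_nonneg_left hPge hx0.le
  have hD1 : (⌊y⌋₊ : ℝ) ≤ y := Nat.floor_le hy0
  have hD2 : y < ⌊y⌋₊ + 1 := Nat.lt_floor_add_one y
  have hDρ : ρ * x ≤ (⌊y⌋₊ : ℝ) := by
    have h1 := mul_le_mul_of_nonneg_right hlim hx0.le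
    have h2 : ((1 - θ) / (1 + η) ^ m - 1 / x) * x = (1 - θ) / (1 + η) ^ m * x - 1 := by
      field_simp
    rw [h2] at h1
    linarith
  have hD8 : x / 4 ≤ (⌊y⌋₊ : ℝ) := by
    have := mul_le_mul_of_nonneg_right hρ hx0.le
    linarith
  have hDpos : (0 : ℝ) < (⌊y⌋₊ : ℝ) := by linarith
  have hN : 2 * ((⌊y⌋₊ * p ^ m : ℕ) : ℝ) ≤ (1 - θ) * (2 * x ^ (m + 1)) := by
    push_cast
    rw [← hP]
    have := mul_le_mul_of_nonneg_right hD1 hP0.le
    rw [hyP] at this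
    linarith
  refine ⟨⌊y⌋₊, ?_, hDρ, hN, ?_, ?_, ?_⟩
  · have : (⌊y⌋₊ : ℝ) ≤ p := by linarith
    exact_mod_cast this
  · push_cast
    rw [← hP]
    have := mul_le_mul_of_nonneg_right hD2.le hP0.le
    rw [hyP] at this
    linarith
  · -- `p ≤ 8 D ≤ D ^ 2`
    have h1 : (p : ℝ) ≤ 8 * (⌊y⌋₊ : ℝ) := by
      have : (p : ℝ) ≤ 2 * x := by
        have := mul_le_mul_of_nonneg_right (show 1 + η ≤ 2 by linarith) hx0.le
        linarith
      linarith
    have h2 : p ≤ 8 * ⌊y⌋₊ := by exact_mod_cast h1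
    have h3 : 8 ≤ ⌊y⌋₊ := by
      have : (8 : ℝ) ≤ (⌊y⌋₊ : ℝ) := by linarith
      exact_mod_cast this
    have h4 : p ≤ ⌊y⌋₊ ^ 2 := by
      calc p ≤ 8 * ⌊y⌋₊ := h2
        _ ≤ ⌊y⌋₊ * ⌊y⌋₊ := Nat.mul_le_mul_right _ h3
        _ = _ := (sq _).symm
    calc ⌊y⌋₊ * p ^ m ≤ ⌊y⌋₊ * (⌊y⌋₊ ^ 2) ^ m :=
          Nat.mul_le_mul_left _ (Nat.pow_le_pow_left h4 m)
      _ = ⌊y⌋₊ ^ (2 * m + 1) := by rw [← pow_mul]; ring
      _ ≤ ⌊y⌋₊ ^ (2 * (m + 1)) := Nat.pow_le_pow_right (by omega) (by omega)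
  · have h1 : 2 * g / (⌊y⌋₊ : ℝ) ^ ((1 : ℝ) / 3) ≤ θ := by
      refine le_trans ?_ hθ
      rw [Real.rpow_neg (by positivity), ← div_eq_mul_inv]
      apply div_le_div_of_nonneg_left (by positivity) (by positivity)
      exact Real.rpow_le_rpow (by positivity) hD8 (by norm_num)
    calc 2 * ((⌊y⌋₊ * p ^ m : ℕ) : ℝ) * (1 + 2 * g / (⌊y⌋₊ : ℝ) ^ ((1 : ℝ) / 3))
        ≤ 2 * ((⌊y⌋₊ * p ^ m : ℕ) : ℝ) * (1 + θ) := by
          apply mul_le_mul_of_nonneg_left (by linarith) (by positivity)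
      _ ≤ (1 - θ) * (2 * x ^ (m + 1)) * (1 + θ) := by
          apply mul_le_mul_of_nonneg_right hN (by linarith)
      _ ≤ 2 * x ^ (m + 1) := by
          have : 0 ≤ θ ^ 2 * (2 * x ^ (m + 1)) := by positivity
          linarith

/-- The lower bound. -/
theorem lower_sharp {k : ℕ} (hk : k = 2 ∨ k = 3 ∨ k = 5) {ε : ℝ} (hε : 0 < ε) :
    ∀ᶠ n : ℕ in atTop, n * (1 / (k : ℝ) * Real.log ((n : ℝ) / 2) - 1 - ε) ≤
      Real.log (maxCycles n (2 * k + 2) : ℝ) := by
  have hk1 : 1 ≤ k := by omega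
  have hk0 : (0 : ℝ) < k := by exact_mod_cast hk1
  obtain ⟨δ, hδ0, hδ1, hδε⟩ : ∃ δ : ℝ, 0 < δ ∧ δ ≤ 1 ∧ 3 * δ ≤ ε :=
    ⟨min 1 (ε / 3), by positivity, min_le_left _ _, by
      have := min_le_right 1 (ε / 3)
      linarith⟩
  obtain ⟨C, hC⟩ := lower_reg (K := 2 * k) (g := 2 * k + 2) (by omega) hδ0
  obtain ⟨η, hη⟩ : ∃ η : ℝ, η = δ / k := ⟨_, rfl⟩
  have hη0 : 0 < η := by rw [hη]; positivity
  have hη1 : η ≤ 1 := by
    rw [hη, div_le_one hk0]
    have : (1 : ℝ) ≤ k := by exact_mod_cast hk1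
    linarith
  have hρ4 : 1 / 4 ≤ Real.exp (-δ) := by
    have h1 : Real.exp (-1) ≤ Real.exp (-δ) := Real.exp_le_exp.2 (by linarith)
    refine le_trans ?_ h1
    rw [Real.exp_neg, ← one_div]
    apply one_div_le_one_div_of_le (Real.exp_pos _)
    have := Real.exp_one_lt_d9
    linarith
  have hpow : (1 + η) ^ (k - 1) < Real.exp δ := by
    have h1 : 1 + η ≤ Real.exp η := by
      have := Real.add_one_le_exp η
      linarith
    have h2 : (1 + η) ^ (k - 1) ≤ Real.exp (η * (k - 1 : ℕ)) := by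
      calc (1 + η) ^ (k - 1) ≤ (Real.exp η) ^ (k - 1) := pow_le_pow_left₀ (by positivity) h1 _
        _ = _ := by rw [← Real.exp_nat_mul, mul_comm]
    refine lt_of_le_of_lt h2 ?_
    apply Real.exp_lt_exp.2
    have h3 : ((k - 1 : ℕ) : ℝ) = k - 1 := by
      rw [Nat.cast_sub hk1]; simp
    rw [h3, hη]
    have : δ / k * (k - 1) = δ - δ / k := by field_simp
    rw [this]
    have : 0 < δ / k := by positivity
    linarith
  -- the limits in `x`
  have hl1 : ∀ᶠ x : ℝ in atTop, Real.exp (-δ) ≤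
      (1 - thet (2 * k + 2) x) / (1 + η) ^ (k - 1) - 1 / x := by
    have h1 : Tendsto (fun x : ℝ => (1 - thet (2 * k + 2) x) / (1 + η) ^ (k - 1) - 1 / x) atTop
        (𝓝 ((1 - 0) / (1 + η) ^ (k - 1) - 0)) := by
      apply Tendsto.sub
      · exact ((thet_tendsto _).const_sub 1).div_const _
      · exact tendsto_inv_atTop_zero.congr (fun x => (one_div x).symm)
    apply h1.eventually
    apply le_mem_nhds
    rw [sub_zero, sub_zero, Real.exp_neg, ← one_div]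
    exact one_div_lt_one_div_of_lt (by positivity) hpow
  have hl2 : ∀ᶠ x : ℝ in atTop, thet (2 * k + 2) x ≤ 1 / 2 :=
    (thet_tendsto _).eventually (ge_mem_nhds (by norm_num))
  have hl3 : ∀ᶠ x : ℝ in atTop,
      (thet (2 * k + 2) x + 2 ^ (k - 1) / x) * Real.log (2 * x) ≤ δ := by
    have h1 : Tendsto (fun x : ℝ => Real.log x / x) atTop (𝓝 0) := by
      have := Real.isLittleO_log_id_atTop.tendsto_div_nhds_zero
      simpa using this
    have h2 : Tendsto (fun x : ℝ => 2 * x) atTop atTop := tendsto_id.const_mul_atTop (by norm_num)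
    have h3 := ((h1.comp h2).const_mul (2 * 2 ^ (k - 1) : ℝ))
    rw [mul_zero] at h3
    have h4 := (thet_log (2 * k + 2)).add h3
    rw [add_zero] at h4
    have h5 := h4.eventually (ge_mem_nhds hδ0)
    filter_upwards [h5, eventually_gt_atTop 0] with x hx hx0
    simp only [Function.comp] at hx
    have e : (thet (2 * k + 2) x + 2 ^ (k - 1) / x) * Real.log (2 * x) =
        thet (2 * k + 2) x * Real.log (2 * x) +
          2 * 2 ^ (k - 1) * (Real.log (2 * x) / (2 * x)) := by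
      field_simp
    rw [e]
    exact hx
  have hl4 : ∀ᶠ y : ℝ in atTop, C * (1 + Real.log y) ≤ y ^ ((1 : ℝ) / 3) := by
    have h1 : Tendsto (fun x : ℝ => Real.log x / x ^ ((1 : ℝ) / 3)) atTop (𝓝 0) :=
      (isLittleO_log_rpow_atTop (by norm_num)).tendsto_div_nhds_zero
    have h2 : Tendsto (fun x : ℝ => 1 / x ^ ((1 : ℝ) / 3)) atTop (𝓝 0) := by
      have := tendsto_rpow_neg_atTop (y := (1 : ℝ) / 3) (by norm_num)
      refine this.congr' ?_
      filter_upwards [eventually_gt_atTop 0] with x hx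
      rw [Real.rpow_neg hx.le, one_div (x ^ _)]
    have h3 := (h2.add h1).const_mul C
    rw [add_zero, mul_zero] at h3
    filter_upwards [h3.eventually (ge_mem_nhds (show (0 : ℝ) < 1 by norm_num)),
      eventually_gt_atTop 0] with x hx hx0
    have hw : 0 < x ^ ((1 : ℝ) / 3) := Real.rpow_pos_of_pos hx0 _
    rw [← add_div, ← mul_div_assoc, div_le_one hw] at hx
    exact hx
  obtain ⟨Y, hY⟩ := eventually_atTop.1 hl4
  have hall := (PNT.exists_prime_short hη0).and (hl1.and (hl2.and (hl3.and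
    (eventually_ge_atTop (max 32 (4 * max Y (Real.exp 2)))))))
  have hx : Tendsto (fun n : ℕ => ((n : ℝ) / 2) ^ ((1 : ℝ) / k)) atTop atTop := by
    apply (tendsto_rpow_atTop (by positivity)).comp
    exact tendsto_natCast_atTop_atTop.atTop_div_const (by norm_num)
  filter_upwards [hx.eventually hall, eventually_ge_atTop 1] with n hn hn1
  obtain ⟨x, hxdef⟩ : ∃ x : ℝ, x = ((n : ℝ) / 2) ^ ((1 : ℝ) / k) := ⟨_, rfl⟩
  rw [← hxdef] at hn
  obtain ⟨⟨p, hp, hpx, hp2⟩, h1, h2, h3, h4⟩ := hn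
  have hn0 : (0 : ℝ) < n := by exact_mod_cast hn1
  have hx32 : 32 ≤ x := (le_max_left _ _).trans h4
  have hxY : 4 * max Y (Real.exp 2) ≤ x := (le_max_right _ _).trans h4
  have hx0 : 0 < x := by linarith
  have hxk : x ^ k = n / 2 := by
    rw [hxdef, ← Real.rpow_natCast, ← Real.rpow_mul (by positivity), one_div_mul_cancel hk0.ne',
      Real.rpow_one]
  have hnx : 2 * x ^ k = n := by rw [hxk]; ring
  have hlogx : 1 / (k : ℝ) * Real.log ((n : ℝ) / 2) = Real.log x := by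
    rw [← hxk, Real.log_pow]
    field_simp
  have hθ0 : 0 ≤ thet (2 * k + 2) x := by
    unfold thet
    positivity
  obtain ⟨D, hDp, hDρ, hN1, hN2, hN3, hN4⟩ := choose_D (g := 2 * k + 2) hk1 hx32 hθ0 h2 hη0 hη1
    hρ4 h1 hpx hp2 le_rfl
  rw [hnx] at hN1 hN2 hN4
  have hD4 : x / 4 ≤ D := by
    have := mul_le_mul_of_nonneg_right hρ4 hx0.le
    linarith
  have hDY : Y ≤ D := by
    have := le_max_left Y (Real.exp 2)
    linarith
  have hDe : Real.exp 2 ≤ D := by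
    have := le_max_right Y (Real.exp 2)
    linarith
  have hDpos : (0 : ℝ) < D := by linarith
  have hD1 : 1 ≤ D := by exact_mod_cast hDpos
  obtain ⟨A, B, iA, iB, I, iI, hA, hB, hr, hc, hNS⟩ := regBip_prime hk hp hDp
  have hDN : D ≤ D * p ^ (k - 1) := Nat.le_mul_of_pos_right _ (pow_pos hp.pos _)
  obtain ⟨n', hn'1, hn'2, hn'3⟩ := hC D (D * p ^ (k - 1)) hD1 hDN hN3 (hY D hDY) A B I hA hB
    hr hc hNS
  have hn'n : n' ≤ n := by
    have : (n' : ℝ) ≤ n := hn'2.trans hN4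
    exact_mod_cast this
  -- the logarithm of the degree
  have hL0 : 0 ≤ Real.log D - 1 - δ := by
    have := (Real.le_log_iff_exp_le hDpos).2 hDe
    linarith
  have hLx : Real.log x - δ ≤ Real.log D := by
    have e1 := Real.log_le_log (by positivity) hDρ
    rw [Real.log_mul (Real.exp_pos _).ne' hx0.ne', Real.log_exp] at e1
    linarith
  have hLup : Real.log D - 1 - δ ≤ Real.log (2 * x) := by
    have e1 : (D : ℝ) ≤ 2 * x := by
      have e2 : (D : ℝ) ≤ p := by exact_mod_cast hDp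
      have e3 : (1 + η) * x ≤ 2 * x := mul_le_mul_of_nonneg_right (by linarith) hx0.le
      linarith
    have := Real.log_le_log hDpos e1
    linarith
  have hmono : Real.log (maxCycles n' (2 * k + 2) : ℝ) ≤
      Real.log (maxCycles n (2 * k + 2) : ℝ) := by
    have e1 : maxCycles n' (2 * k + 2) ≤ maxCycles n (2 * k + 2) := maxCycles_mono hn'n _
    rcases Nat.eq_zero_or_pos (maxCycles n' (2 * k + 2)) with e2 | e2
    · rw [e2, Nat.cast_zero, Real.log_zero]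
      exact Real.log_natCast_nonneg _
    · exact Real.log_le_log (by exact_mod_cast e2) (by exact_mod_cast e1)
  refine le_trans ?_ (hn'3.trans hmono)
  -- from `n'` to `2 N`
  have hstep1 : ((1 - thet (2 * k + 2) x) * n - 2 * (p : ℝ) ^ (k - 1)) *
      (Real.log D - 1 - δ) ≤ n' * (Real.log D - 1 - δ) := by
    apply mul_le_mul_of_nonneg_right _ hL0
    refine hN2.trans ?_
    have : ((2 * (D * p ^ (k - 1)) : ℕ) : ℝ) ≤ n' := by exact_mod_cast hn'1
    push_cast at this ⊢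
    linarith
  refine le_trans ?_ hstep1
  have hploss : 2 * (p : ℝ) ^ (k - 1) ≤ n * (2 ^ (k - 1) / x) := by
    have e1 : (p : ℝ) ≤ 2 * x := by
      have e3 : (1 + η) * x ≤ 2 * x := mul_le_mul_of_nonneg_right (by linarith) hx0.le
      linarith
    have e2 : (p : ℝ) ^ (k - 1) ≤ (2 * x) ^ (k - 1) := pow_le_pow_left₀ (Nat.cast_nonneg p) e1 _
    have e3 : (n : ℝ) * (2 ^ (k - 1) / x) = 2 * (2 * x) ^ (k - 1) := by
      rw [← hnx, mul_pow]
      obtain ⟨m, hm⟩ : ∃ m, k = m + 1 := ⟨k - 1, by omega⟩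
      rw [hm, Nat.add_sub_cancel]
      field_simp
      ring
    rw [e3]
    linarith
  have hloss : (thet (2 * k + 2) x * n + 2 * (p : ℝ) ^ (k - 1)) * (Real.log D - 1 - δ) ≤
      n * δ := by
    calc (thet (2 * k + 2) x * n + 2 * (p : ℝ) ^ (k - 1)) * (Real.log D - 1 - δ)
        ≤ (thet (2 * k + 2) x * n + n * (2 ^ (k - 1) / x)) * Real.log (2 * x) := by
          apply mul_le_mul (by linarith) hLup hL0
          positivity
      _ = n * ((thet (2 * k + 2) x + 2 ^ (k - 1) / x) * Real.log (2 * x)) := by ring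
      _ ≤ n * δ := mul_le_mul_of_nonneg_left h3 hn0.le
  have hmain : (n : ℝ) * (Real.log x - 1 - 3 * δ) ≤
      n * (Real.log D - 1 - δ) - n * δ := by
    have := mul_le_mul_of_nonneg_left hLx hn0.le
    linarith
  have hmain2 : (n : ℝ) * (Real.log x - 1 - ε) ≤ n * (Real.log x - 1 - 3 * δ) :=
    mul_le_mul_of_nonneg_left (by linarith) hn0.le
  rw [hlogx]
  linarith

end Pool.Agent.Helper64.Sharp
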