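import Pool.Agent.Helper72.Cyc.Bip
import Pool.Agent.Helper72.Cyc.Perms
import Pool.Agent.SC.Gurvits

/-!
# Regular bipartite graphs have many permutations along their edges
-/

set_option autoImplicit false
set_option linter.unusedSectionVars false

namespace Pool.Agent.Helper64.Sharp

open Finset SimpleGraph Filter Topology Pool.Agent.Helper72.Cyc

/-- The capacity of a regular matrix. -/
theorem capacity {N D : ℕ} (hD : 1 ≤ D) (I : Fin N → Fin N → Prop) [∀ i j, Decidable (I i j)]
    (hrow : ∀ i, (univ.filter (fun j => I i j)).card = D)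
    (hcol : ∀ j, (univ.filter (fun i => I i j)).card = D) (x : Fin N → ℝ) (hx : ∀ j, 0 < x j) :
    (D : ℝ) ^ N * ∏ j, x j ≤ ∏ i, ∑ j ∈ univ.filter (fun j => I i j), x j := by
  have hD0 : (0 : ℝ) < D := by exact_mod_cast hD
  have h1 : ∀ i, (D : ℝ) * ∏ j ∈ univ.filter (fun j => I i j), x j ^ (1 / (D : ℝ)) ≤
      ∑ j ∈ univ.filter (fun j => I i j), x j := by
    intro i
    have h2 := Real.geom_mean_le_arith_mean_weighted (univ.filter (fun j => I i j))
      (fun _ => 1 / (D : ℝ)) x (fun _ _ => by positivity)
      (by rw [sum_const, hrow, nsmul_eq_mul]; field_simp) (fun j _ => (hx j).le)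
    rw [← mul_sum] at h2
    have h3 := mul_le_mul_of_nonneg_left h2 hD0.le
    refine h3.trans (le_of_eq ?_)
    field_simp
  calc (D : ℝ) ^ N * ∏ j, x j
      = ∏ i, ((D : ℝ) * ∏ j ∈ univ.filter (fun j => I i j), x j ^ (1 / (D : ℝ))) := by
        rw [prod_mul_distrib, prod_const, card_univ, Fintype.card_fin]
        congr 1
        have h4 : ∏ i, ∏ j ∈ univ.filter (fun j => I i j), x j ^ (1 / (D : ℝ)) =
            ∏ j, ∏ i ∈ univ.filter (fun i => I i j), x j ^ (1 / (D : ℝ)) := by
          apply Finset.prod_comm'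
          intro i j
          simp
        rw [h4]
        refine prod_congr rfl fun j _ => ?_
        rw [prod_const, hcol, ← Real.rpow_natCast, ← Real.rpow_mul (hx j).le]
        rw [one_div, inv_mul_cancel₀ hD0.ne', Real.rpow_one]
    _ ≤ _ := by
        apply Finset.prod_le_prod
        · intro i _
          have : 0 ≤ ∏ j ∈ univ.filter (fun j => I i j), x j ^ (1 / (D : ℝ)) :=
            prod_nonneg fun j _ => Real.rpow_nonneg (hx j).le _
          positivity
        · exact fun i _ => h1 i

/-- The permanent of a regular matrix with entries zero and one. -/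
theorem perm_regular {N D : ℕ} (hD : 1 ≤ D) (I : Fin N → Fin N → Prop) [∀ i j, Decidable (I i j)]
    (hrow : ∀ i, (univ.filter (fun j => I i j)).card = D)
    (hcol : ∀ j, (univ.filter (fun i => I i j)).card = D) :
    (D : ℝ) ^ N ≤ Real.exp N *
      ((univ.filter (fun σ : Equiv.Perm (Fin N) => ∀ i, I (σ i) i)).card : ℝ) := by
  have h1 : ∀ ε : ℝ, 0 < ε → (D : ℝ) ^ N ≤
      Real.exp N * Matrix.permanent (Matrix.of fun i j => (if I i j then (1 : ℝ) else 0) + ε) := by
    intro ε hε
    refine Pool.Agent.SC.gurvits N _ (fun i j => ?_) _ fun x hx => ?_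
    · simp only [Matrix.of_apply]
      split_ifs <;> linarith
    · refine (capacity hD I hrow hcol x hx).trans ?_
      refine Finset.prod_le_prod (fun i _ => Finset.sum_nonneg fun j _ => (hx j).le) fun i _ => ?_
      rw [sum_filter]
      refine Finset.sum_le_sum fun j _ => ?_
      simp only [Matrix.of_apply]
      have := hx j
      have h2 := mul_pos hε this
      split_ifs <;> nlinarith
  have h2 : Tendsto (fun ε : ℝ =>
      Real.exp N * Matrix.permanent (Matrix.of fun i j => (if I i j then (1 : ℝ) else 0) + ε))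
      (𝓝[>] 0)
      (𝓝 (Real.exp N * Matrix.permanent (Matrix.of fun i j => (if I i j then (1 : ℝ) else 0)))) := by
    have h3 : Continuous fun ε : ℝ =>
        Real.exp N * Matrix.permanent (Matrix.of fun i j => (if I i j then (1 : ℝ) else 0) + ε) := by
      unfold Matrix.permanent
      simp only [Matrix.of_apply]
      fun_prop
    have h4 := (h3.tendsto 0).mono_left (nhdsWithin_le_nhds (s := Set.Ioi (0 : ℝ)))
    simpa using h4
  have h3 : (D : ℝ) ^ N ≤
      Real.exp N * Matrix.permanent (Matrix.of fun i j => (if I i j then (1 : ℝ) else 0)) := by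
    refine ge_of_tendsto h2 ?_
    filter_upwards [self_mem_nhdsWithin] with ε hε
    exact h1 ε hε
  refine h3.trans (le_of_eq ?_)
  congr 1
  unfold Matrix.permanent
  simp only [Matrix.of_apply]
  rw [Finset.card_filter]
  push_cast
  refine sum_congr rfl fun σ _ => ?_
  by_cases h : ∀ i, I (σ i) i
  · rw [if_pos h]
    exact prod_eq_one fun i _ => if_pos (h i)
  · rw [if_neg h]
    push Not at h
    obtain ⟨i, hi⟩ := h
    exact prod_eq_zero (mem_univ i) (if_neg hi)

open scoped Classical in
/-- The number of permutations along the edges of a regular bipartite graph. -/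
theorem card_EP_bip {A B : Type} [Fintype A] [Fintype B] (I : A → B → Prop) {N D : ℕ}
    (hA : Fintype.card A = N) (hB : Fintype.card B = N) (hD : 1 ≤ D)
    (hrow : ∀ a, (univ.filter (fun b => I a b)).card = D)
    (hcol : ∀ b, (univ.filter (fun a => I a b)).card = D) :
    (D : ℝ) ^ (2 * N) ≤ Real.exp (2 * N) * ((EP (bip I)).card : ℝ) := by
  obtain ⟨eA⟩ : Nonempty (Fin N ≃ A) := ⟨(Fintype.equivFinOfCardEq hA).symm⟩
  obtain ⟨eB⟩ : Nonempty (Fin N ≃ B) := ⟨(Fintype.equivFinOfCardEq hB).symm⟩
  have h1 := perm_regular hD (fun i j => I (eA i) (eB j))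
    (fun i => by
      rw [← hrow (eA i)]
      refine card_bij (fun j _ => eB j) ?_ ?_ ?_
      · intro j hj
        rw [mem_filter] at hj ⊢
        exact ⟨mem_univ _, hj.2⟩
      · intro j _ j' _ h
        exact eB.injective h
      · intro b hb
        rw [mem_filter] at hb
        refine ⟨eB.symm b, ?_, by simp⟩
        rw [mem_filter]
        exact ⟨mem_univ _, by simpa using hb.2⟩)
    (fun j => by
      rw [← hcol (eB j)]
      refine card_bij (fun i _ => eA i) ?_ ?_ ?_
      · intro i hi
        rw [mem_filter] at hi ⊢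
        exact ⟨mem_univ _, hi.2⟩
      · intro i _ i' _ h
        exact eA.injective h
      · intro a ha
        rw [mem_filter] at ha
        refine ⟨eA.symm a, ?_, by simp⟩
        rw [mem_filter]
        exact ⟨mem_univ _, by simpa using ha.2⟩)
  set M := univ.filter (fun σ : Equiv.Perm (Fin N) => ∀ i, I (eA (σ i)) (eB i)) with hM
  have h2 : M.card * M.card ≤ (EP (bip I)).card := by
    rw [← Finset.card_product]
    apply Finset.card_le_card_of_injOn (fun p : Equiv.Perm (Fin N) × Equiv.Perm (Fin N) =>
      (Equiv.sumCongr (eA.symm.trans (p.1.symm.trans eB)) (eB.symm.trans (p.2.trans eA))).trans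
        (Equiv.sumComm B A))
    · rintro ⟨σ, τ⟩ hp
      rw [Finset.mem_coe, Finset.mem_product, hM, mem_filter, mem_filter] at hp
      rw [Finset.mem_coe, mem_EP]
      rintro (a | b)
      · show (bip I).Adj (Sum.inl a) (Sum.inr (eB (σ.symm (eA.symm a))))
        rw [bip_adj_lr]
        have := hp.1.2 (σ.symm (eA.symm a))
        simpa using this
      · show (bip I).Adj (Sum.inr b) (Sum.inl (eA (τ (eB.symm b))))
        refine SimpleGraph.Adj.symm ?_
        rw [bip_adj_lr]
        have := hp.2.2 (eB.symm b)
        simpa using this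
    · rintro ⟨σ, τ⟩ _ ⟨σ', τ'⟩ _ h
      have hσ : σ.symm = σ'.symm := by
        ext i
        have := congrArg (fun π : Equiv.Perm (A ⊕ B) => π (Sum.inl (eA i))) h
        have h3 : eB (σ.symm i) = eB (σ'.symm i) := by simpa using this
        rw [eB.injective h3]
      have hτ : τ = τ' := by
        ext i
        have := congrArg (fun π : Equiv.Perm (A ⊕ B) => π (Sum.inr (eB i))) h
        have h3 : eA (τ i) = eA (τ' i) := by simpa using this
        rw [eA.injective h3]
      have hσ' : σ = σ' := by
        have := congrArg Equiv.symm hσ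
        simpa using this
      rw [hσ', hτ]
  have h3 : ((M.card : ℕ) : ℝ) * M.card ≤ ((EP (bip I)).card : ℝ) := by exact_mod_cast h2
  have h4 : (D : ℝ) ^ (2 * N) = (D : ℝ) ^ N * (D : ℝ) ^ N := by rw [two_mul, pow_add]
  have h5 : Real.exp (2 * (N : ℝ)) = Real.exp N * Real.exp N := by
    rw [← Real.exp_add]; congr 1; ring
  rw [h4, h5]
  have h6 : (0 : ℝ) ≤ (D : ℝ) ^ N := by positivity
  calc (D : ℝ) ^ N * (D : ℝ) ^ N ≤ (Real.exp N * M.card) * (Real.exp N * M.card) :=
        mul_le_mul h1 h1 h6 (h6.trans h1)
    _ = Real.exp N * Real.exp N * ((M.card : ℝ) * M.card) := by ring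
    _ ≤ _ := mul_le_mul_of_nonneg_left h3 (by positivity)

open scoped Classical in
lemma degree_bip {A B : Type} [Fintype A] [Fintype B] (I : A → B → Prop) {D : ℕ}
    (hrow : ∀ a, (univ.filter (fun b => I a b)).card = D)
    (hcol : ∀ b, (univ.filter (fun a => I a b)).card = D) (v : A ⊕ B) :
    (bip I).degree v ≤ D := by
  rw [← card_neighborFinset_eq_degree]
  rcases v with a | b
  · rw [← hrow a]
    have h1 : (bip I).neighborFinset (Sum.inl a) ⊆
        (univ.filter (fun b => I a b)).image Sum.inr := by
      intro w hw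
      rw [mem_neighborFinset] at hw
      have h2 := bip_isLeft hw
      rcases w with w | w
      · simp at h2
      · rw [mem_image]
        exact ⟨w, mem_filter.2 ⟨mem_univ _, bip_adj_lr.1 hw⟩, rfl⟩
    exact (card_le_card h1).trans card_image_le
  · rw [← hcol b]
    have h1 : (bip I).neighborFinset (Sum.inr b) ⊆
        (univ.filter (fun a => I a b)).image Sum.inl := by
      intro w hw
      rw [mem_neighborFinset] at hw
      have h2 := bip_isLeft hw
      rcases w with w | w
      · rw [mem_image]
        exact ⟨w, mem_filter.2 ⟨mem_univ _, bip_adj_lr.1 hw.symm⟩, rfl⟩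
      · simp at h2
    exact (card_le_card h1).trans card_image_le

end Pool.Agent.Helper64.Sharp
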