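import Pool.Agent.Helper64.Sharp.LowNum
import Pool.Agent.Helper64.Sharp.Vdw

/-!
# The sharp lower bound
-/

set_option autoImplicit false
set_option linter.unusedSectionVars false

namespace Pool.Agent.Helper64.Sharp

open Finset SimpleGraph Filter Topology Pool.Agent.Helper72.Cyc

theorem ep_low {A B : Type} [Fintype A] [Fintype B]
    (I : A → B → Prop) [∀ a b, Decidable (I a b)] {D N : ℕ} (hD : 1 ≤ D)
    (hA : Fintype.card A = N) (hB : Fintype.card B = N)
    (hrow : ∀ a, (univ.filter (fun b => I a b)).card = D)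
    (hcol : ∀ b, (univ.filter (fun a => I a b)).card = D) :
    Real.exp (((2 * N : ℕ) : ℝ) * (Real.log D - 1)) ≤ ((EP (bip I)).card : ℝ) := by
  have hD0 : (0 : ℝ) < D := by exact_mod_cast hD
  have h1 := card_EP_bip I hA hB hD (fun a => by rw [← hrow a]; congr)
    (fun b => by rw [← hcol b]; congr)
  have h2 : (D : ℝ) ^ (2 * N) = Real.exp (((2 * N : ℕ) : ℝ) * Real.log D) := by
    rw [mul_comm (((2 * N : ℕ) : ℝ)), Real.exp_mul, Real.exp_log hD0, Real.rpow_natCast]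
  have h3 : Real.exp (2 * (N : ℝ)) = Real.exp ((2 * N : ℕ) : ℝ) := by
    congr 1
    push_cast; ring
  rw [h2, h3] at h1
  have h4 : Real.exp (((2 * N : ℕ) : ℝ) * (Real.log D - 1)) =
      Real.exp (((2 * N : ℕ) : ℝ) * Real.log D) / Real.exp ((2 * N : ℕ) : ℝ) := by
    rw [← Real.exp_sub]; congr 1; ring
  rw [h4, div_le_iff₀ (Real.exp_pos _)]
  linarith

/-- Many cycles from a regular bipartite graph. -/
theorem lower_reg {K g : ℕ} (hg : 3 ≤ g) {ε : ℝ} (hε : 0 < ε) :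
    ∃ C : ℝ, ∀ D N : ℕ, 1 ≤ D → D ≤ N → N ≤ D ^ K →
      C * (1 + Real.log D) ≤ (D : ℝ) ^ ((1 : ℝ) / 3) →
      ∀ (A B : Type) [Fintype A] [Fintype B]
        (I : A → B → Prop) [∀ a b, Decidable (I a b)],
        Fintype.card A = N → Fintype.card B = N →
        (∀ a, (univ.filter (fun b => I a b)).card = D) →
        (∀ b, (univ.filter (fun a => I a b)).card = D) → NoShort (bip I) g →
        ∃ n' : ℕ, 2 * N ≤ n' ∧ (n' : ℝ) ≤ 2 * N * (1 + 2 * g / (D : ℝ) ^ ((1 : ℝ) / 3)) ∧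
          (n' : ℝ) * (Real.log D - 1 - ε) ≤ Real.log (maxCycles n' g : ℝ) := by
  obtain ⟨C, hC60, hCk, hCC1, hCC2⟩ : ∃ C : ℝ, 60 ≤ C ∧ 8 * ((K : ℝ) + 2) ≤ C ∧
      4 * ((g : ℝ) + 2 * (K + 2)) ≤ ε * C ∧ 2 ≤ ε * C := by
    have hC1p : 0 ≤ 4 * ((g : ℝ) + 2 * (K + 2)) / ε := by positivity
    have hC2p : 0 ≤ 2 / ε := by positivity
    refine ⟨60 + 8 * (K + 2) + 4 * ((g : ℝ) + 2 * (K + 2)) / ε + 2 / ε,
      by linarith, by linarith, ?_, ?_⟩
    · have e1 : ε * (4 * ((g : ℝ) + 2 * (K + 2)) / ε) =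
          4 * ((g : ℝ) + 2 * (K + 2)) := by field_simp
      have e2 : 0 ≤ ε * (60 + 8 * ((K : ℝ) + 2) + 2 / ε) := by positivity
      calc 4 * ((g : ℝ) + 2 * (K + 2)) ≤
          ε * (4 * ((g : ℝ) + 2 * (K + 2)) / ε) +
            ε * (60 + 8 * ((K : ℝ) + 2) + 2 / ε) := by rw [e1]; linarith
        _ = _ := by ring
    · have e1 : ε * (2 / ε) = 2 := by field_simp
      have e2 : 0 ≤ ε * (60 + 8 * ((K : ℝ) + 2) +
        4 * ((g : ℝ) + 2 * (K + 2)) / ε) := by positivity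
      calc (2 : ℝ) ≤ ε * (2 / ε) + ε * (60 + 8 * ((K : ℝ) + 2) +
            4 * ((g : ℝ) + 2 * (K + 2)) / ε) := by rw [e1]; linarith
        _ = _ := by ring
  refine ⟨C, ?_⟩
  intro D N hD hDN hNK hCu A B _ _ I _ hA hB hrow hcol hNS
  have hD0 : (0 : ℝ) < D := by exact_mod_cast hD
  have hD1 : (1 : ℝ) ≤ D := by exact_mod_cast hD
  have hDN' : (D : ℝ) ≤ N := by exact_mod_cast hDN
  have hNK' : (N : ℝ) ≤ (D : ℝ) ^ K := by exact_mod_cast hNK
  have hl0 : 0 ≤ Real.log D := Real.log_nonneg hD1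
  have hC0 : 0 < C := by linarith
  obtain ⟨u, hu⟩ : ∃ u : ℝ, u = (D : ℝ) ^ ((1 : ℝ) / 3) := ⟨_, rfl⟩
  rw [← hu] at hCu ⊢
  have hCu' : C ≤ u := by
    have : C * 1 ≤ C * (1 + Real.log D) := mul_le_mul_of_nonneg_left (by linarith) hC0.le
    linarith
  have hu60 : 60 ≤ u := by linarith
  have hu0 : 0 < u := by linarith
  have hu3 : u ^ 3 = D := by
    rw [hu, ← Real.rpow_natCast, ← Real.rpow_mul hD0.le]
    norm_num
  have hlu4 : 4 ≤ Real.log u := by
    rw [Real.le_log_iff_exp_le hu0]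
    have h1 : Real.exp 4 = (Real.exp 1) ^ 4 := by
      rw [← Real.exp_nat_mul]; norm_num
    have h2 := Real.exp_one_lt_d9
    have h3 : (Real.exp 1) ^ 4 ≤ (2.7182818286 : ℝ) ^ 4 :=
      pow_le_pow_left₀ (Real.exp_pos _).le h2.le 4
    rw [h1]
    refine h3.trans ?_
    norm_num
    linarith
  have h1l : 1 + Real.log D ≤ u / C := by
    rw [le_div_iff₀ hC0]; linarith
  have h1lu : 1 + Real.log D ≤ u := h1l.trans (div_le_self hu0.le (by linarith))
  -- the number of vertices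
  obtain ⟨n, hn⟩ : ∃ n : ℕ, n = 2 * N := ⟨_, rfl⟩
  have hcard : Fintype.card (A ⊕ B) = n := by rw [Fintype.card_sum, hA, hB]; omega
  have hnR : (n : ℝ) = 2 * (N : ℝ) := by rw [hn]; push_cast; ring
  have hn2u : 2 * u ^ 3 ≤ n := by rw [hu3, hnR]; linarith
  have hn0 : (0 : ℝ) < n := by
    have : 0 < u ^ 3 := by positivity
    linarith
  have hn1 : 1 ≤ n := by exact_mod_cast hn0
  have hnu : 2 * u ^ 2 ≤ n / u := by
    rw [le_div_iff₀ hu0]
    calc 2 * u ^ 2 * u = 2 * u ^ 3 := by ring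
      _ ≤ (n : ℝ) := hn2u
  have hnu1 : 2 * u ≤ n / u := by
    have : 2 * u * 1 ≤ 2 * u * u := mul_le_mul_of_nonneg_left (by linarith) (by linarith)
    calc 2 * u = 2 * u * 1 := by ring
      _ ≤ 2 * u * u := this
      _ = 2 * u ^ 2 := by ring
      _ ≤ n / u := hnu
  have hlogn1 : Real.log (2 * ((n : ℝ) + 1)) ≤ (K + 2) * (1 + Real.log D) := by
    rw [hnR]
    exact log_num hD1 (Nat.cast_nonneg N) hNK'
  have hlogn : Real.log ((n : ℝ) + 1) ≤ (K + 2) * (1 + Real.log D) := by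
    refine le_trans (Real.log_le_log (by positivity) ?_) hlogn1
    linarith
  have hm : ((K : ℝ) + 2) * (1 + Real.log D) ≤ n / u / 2 := by
    have e1 : ((K : ℝ) + 2) * (1 + Real.log D) ≤ C * (1 + Real.log D) := by
      apply mul_le_mul_of_nonneg_right _ (by linarith)
      linarith
    linarith
  -- the number of cycles
  obtain ⟨t, ht⟩ : ∃ t : ℕ, t = ⌈(n : ℝ) / u⌉₊ := ⟨_, rfl⟩
  have ht1 : (n : ℝ) / u ≤ t := by rw [ht]; exact Nat.le_ceil _
  have hnu0 : 0 ≤ (n : ℝ) / u := by positivity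
  have ht2 : (t : ℝ) ≤ 2 * (n / u) := by
    have h1 := Nat.ceil_lt_add_one hnu0
    rw [← ht] at h1
    linarith
  have ht0 : (0 : ℝ) < t := lt_of_lt_of_le (by positivity) ht1
  have ht1' : 1 ≤ t := by exact_mod_cast ht0
  -- `q`
  have hqle := q_num hD hn0 ht0 hu0 hu3 ht1
  obtain ⟨q, hq⟩ : ∃ q : ℝ, q = (Real.exp 1 * (n : ℝ) / t) ^ 2 * Real.exp (-phi D) := ⟨_, rfl⟩
  rw [← hq] at hqle
  have hq0 : 0 < q := by rw [hq]; positivity
  have hq1 : q ≤ 1 := by
    refine hqle.trans ?_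
    rw [Real.exp_le_one_iff]
    linarith
  obtain ⟨L, hL, hEP⟩ := gadget_sharp (bip I) (g := g) (D := D) (t := t) hNS
    (fun v => by
      have := degree_bip I (D := D) (fun a => by rw [← hrow a]; congr)
        (fun b => by rw [← hcol b]; congr) v
      convert this)
    ht1' (by rw [hcard]; exact hn1) (by rw [hcard, ← hq]; exact hq1)
  rw [hcard, ← hq] at hEP
  rw [hcard] at hL
  have hEPlow := ep_low I hD hA hB hrow hcol
  rw [← hn] at hEPlow
  have hmany := many_num (t := t) hD hn0 (by linarith) hu3 ht1 hq0 hqle hlu4 h1lu hlogn1 hm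
  have hLlow : 1 / 2 * Real.exp (n * (Real.log D - 1)) ≤
      L * (((n : ℝ) + 1) ^ t * (n : ℝ) ^ t) := by
    linarith
  have hlogL := logL_num (by exact_mod_cast hn1) (Nat.cast_nonneg L) hlogn hLlow
  -- the final estimates
  have htl : (t : ℝ) * (1 + Real.log D) ≤ 2 * n / C := by
    calc (t : ℝ) * (1 + Real.log D) ≤ 2 * (n / u) * (u / C) :=
          mul_le_mul ht2 h1l (by linarith) (by positivity)
      _ = 2 * n / C := by field_simp
  have hnC : C ≤ n := by
    have e1 : (n : ℝ) / u ≤ n := div_le_self hn0.le (by linarith)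
    linarith
  have hbig : 2 * t * (((K : ℝ) + 2) * (1 + Real.log D)) ≤ n / 2 := by
    have h1 : 2 * ((K : ℝ) + 2) * (t * (1 + Real.log D)) ≤ 2 * (K + 2) * (2 * n / C) :=
      mul_le_mul_of_nonneg_left htl (by positivity)
    have h2 : 2 * ((K : ℝ) + 2) * (2 * n / C) ≤ n / 2 := by
      rw [← mul_div_assoc, div_le_div_iff₀ hC0 (by norm_num)]
      have := mul_le_mul_of_nonneg_right hCk hn0.le
      linarith
    linarith
  have hl11 : 11 ≤ Real.log D := by
    have : 3 * Real.log u = Real.log D := by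
      rw [← hu3, Real.log_pow]; norm_num
    linarith
  have hL2 : 2 ≤ L := by
    have h0 : (n : ℝ) * 10 ≤ n * (Real.log D - 1) :=
      mul_le_mul_of_nonneg_left (by linarith) hn0.le
    have h1 : (2 : ℝ) ≤ Real.log L := by linarith
    have h2 : (L : ℝ) ≠ 0 := by
      intro h
      rw [h, Real.log_zero] at h1
      linarith
    have h3 : (0 : ℝ) < L := lt_of_le_of_ne (Nat.cast_nonneg _) h2.symm
    have h4 := Real.log_le_sub_one_of_pos h3
    have h5 : (2 : ℝ) ≤ L := by linarith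
    exact_mod_cast h5
  have hfin := hL.le_maxCycles hg hL2
  have hn'R : ((n + g * t : ℕ) : ℝ) = n + g * t := by push_cast; ring
  refine ⟨n + g * t, by omega, ?_, ?_⟩
  · rw [hn'R, ← hnR]
    have e1 : (g : ℝ) * t ≤ g * (2 * (n / u)) := mul_le_mul_of_nonneg_left ht2 (Nat.cast_nonneg _)
    calc (n : ℝ) + g * t ≤ n + g * (2 * (n / u)) := by linarith
      _ = n * (1 + 2 * g / u) := by ring
  · have hlogc : Real.log L ≤ Real.log (maxCycles (n + g * t) g : ℝ) := by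
      apply Real.log_le_log
      · exact_mod_cast (by omega : 0 < L)
      · exact_mod_cast hfin
    refine le_trans ?_ hlogc
    rw [hn'R]
    exact final_num hε hn0 ht0 htl hC0 hnC hCC1 hCC2 hlogL

end Pool.Agent.Helper64.Sharp
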