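import Pool.Agent.Helper72.Cyc.Reps
import Pool.Agent.Helper72.Cyc.Close
import Pool.Agent.Helper64.Sharp.Breg

/-!
# Few permutations along edges have many cycles
-/

set_option autoImplicit false
set_option linter.unusedSectionVars false

namespace Pool.Agent.Helper64.Sharp

open Finset SimpleGraph Pool.Agent.Helper72.Cyc

theorem phi_le_succ (r : ℕ) : phi r ≤ phi (r + 1) := by
  rcases Nat.eq_zero_or_pos r with rfl | hr
  · simp [phi]
  · unfold phi
    have hr0 : (0 : ℝ) < r := by exact_mod_cast hr
    rw [div_le_div_iff₀ hr0 (by push_cast; linarith), Nat.factorial_succ]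
    push_cast
    rw [Real.log_mul (by positivity) (by positivity)]
    have h1 : Real.log (r.factorial : ℝ) ≤ r * Real.log ((r : ℝ) + 1) := by
      rw [← Real.log_pow]
      apply Real.log_le_log (by positivity)
      have h2 : (r.factorial : ℝ) ≤ (r : ℝ) ^ r := by exact_mod_cast Nat.factorial_le_pow r
      exact h2.trans (pow_le_pow_left₀ hr0.le (by linarith) r)
    nlinarith

theorem phi_mono : Monotone phi := monotone_nat_of_le_succ phi_le_succ

section

variable {W : Type*} [Fintype W]

open scoped Classical in
/-- The number of permutations along the edges with exactly `r` cycles. -/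
theorem card_reps_eq_le (H : SimpleGraph W) {D : ℕ} (hD : ∀ v, H.degree v ≤ D) (r : ℕ) :
    (((EP H).filter (fun σ => (reps σ).card = r)).card : ℝ) ≤
      ((Fintype.card W).choose r : ℝ) ^ 2 * Real.exp (((Fintype.card W : ℝ) - r) * phi D) := by
  set S := (EP H).filter (fun σ => (reps σ).card = r) with hS
  let key : Equiv.Perm W → Finset W × Finset W :=
    fun σ => (reps σ, Finset.univ.filter (fun v => σ v ∈ reps σ))
  set T : Finset (Finset W × Finset W) := powersetCard r univ ×ˢ powersetCard r univ with hT
  have hPcard : ∀ σ : Equiv.Perm W,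
      (Finset.univ.filter (fun v => σ v ∈ reps σ)).card = (reps σ).card := by
    intro σ
    apply Finset.card_bij (fun v _ => σ v)
    · intro v hv; rw [Finset.mem_filter] at hv; exact hv.2
    · intro a _ b _ hab; exact σ.injective hab
    · intro b hb
      refine ⟨σ.symm b, ?_, by simp⟩
      rw [Finset.mem_filter]
      exact ⟨Finset.mem_univ _, by simpa using hb⟩
  have hmaps : ∀ σ ∈ S, key σ ∈ T := by
    intro σ hσ
    rw [hS, Finset.mem_filter] at hσ
    rw [hT, mem_product, mem_powersetCard, mem_powersetCard]
    exact ⟨⟨subset_univ _, hσ.2⟩, subset_univ _, (hPcard σ).trans hσ.2⟩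
  have hfib : ∀ b ∈ T, ((S.filter (fun σ => key σ = b)).card : ℝ) ≤
      Real.exp (((Fintype.card W : ℝ) - r) * phi D) := by
    rintro ⟨R, P⟩ hRP
    rw [hT, mem_product, mem_powersetCard, mem_powersetCard] at hRP
    simp only at hRP
    obtain ⟨⟨-, hR⟩, -, hP⟩ := hRP
    have h1 : (S.filter (fun σ => key σ = (R, P))).card ≤
        (BM (fun v => H.neighborFinset v) (univ \ P) (univ \ R)).card := by
      apply Finset.card_le_card_of_injOn (fun σ v => if v ∈ P then none else some (σ v))
      · intro σ hσ
        rw [Finset.mem_coe, Finset.mem_filter, hS, Finset.mem_filter, mem_EP, Prod.mk.injEq] at hσ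
        obtain ⟨⟨h2, -⟩, h3, h4⟩ := hσ
        have hPσ : ∀ v, v ∈ P ↔ σ v ∈ R := by
          intro v; rw [← h4, Finset.mem_filter, h3]; simp
        rw [Finset.mem_coe, mem_BM]
        refine ⟨?_, ?_, ?_⟩
        · intro v hv
          rw [mem_sdiff, not_and_not_right] at hv
          simp only
          rw [if_pos (hv (mem_univ _))]
        · intro v hv
          rw [mem_sdiff] at hv
          refine ⟨σ v, ?_, ?_⟩
          · rw [mem_inter, mem_neighborFinset, mem_sdiff]
            exact ⟨h2 v, mem_univ _, fun h => hv.2 ((hPσ v).2 h)⟩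
          · simp only
            rw [if_neg hv.2]
        · intro v hv v' hv' h
          rw [mem_sdiff] at hv hv'
          simp only at h
          rw [if_neg hv.2, if_neg hv'.2] at h
          exact σ.injective (Option.some.inj h)
      · intro σ hσ τ hτ hst
        rw [Finset.mem_coe, Finset.mem_filter, Prod.mk.injEq] at hσ hτ
        have hPσ : ∀ v, v ∈ P ↔ σ v ∈ reps σ := by
          intro v; rw [← hσ.2.2, Finset.mem_filter]; simp
        have hPτ : ∀ v, v ∈ P ↔ τ v ∈ reps τ := by
          intro v; rw [← hτ.2.2, Finset.mem_filter]; simp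
        apply decode (hσ.2.1.trans hτ.2.1.symm)
        · intro v; rw [← hPσ, ← hPτ]
        · intro v hv
          have hv' : v ∉ P := fun h => hv ((hPσ v).1 h)
          have := congrFun hst v
          simp only [if_neg hv'] at this
          exact Option.some.inj this
    have h2 : ((univ : Finset W) \ P).card = ((univ : Finset W) \ R).card := by
      rw [card_sdiff_of_subset (subset_univ _), card_sdiff_of_subset (subset_univ _), hP, hR]
    have h3 := log_card_BM (N := fun v => H.neighborFinset v) h2
    have h4 : (∑ j ∈ (univ : Finset W) \ P, phi ((H.neighborFinset j ∩ (univ \ R)).card)) ≤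
        ((Fintype.card W : ℝ) - r) * phi D := by
      calc _ ≤ ∑ j ∈ (univ : Finset W) \ P, phi D := by
            apply sum_le_sum
            intro j _
            apply phi_mono
            refine (card_le_card inter_subset_left).trans ?_
            rw [card_neighborFinset_eq_degree]
            exact hD j
        _ = _ := by
            rw [sum_const, nsmul_eq_mul, card_sdiff_of_subset (subset_univ _), card_univ, hP,
              Nat.cast_sub (by rw [← hP]; exact card_le_univ _)]
    rcases Nat.eq_zero_or_pos (BM (fun v => H.neighborFinset v) (univ \ P) (univ \ R)).card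
      with h0 | hpos
    · have : (S.filter (fun σ => key σ = (R, P))).card = 0 := by omega
      rw [this, Nat.cast_zero]
      exact (Real.exp_pos _).le
    · have h5 : (((S.filter (fun σ => key σ = (R, P))).card : ℕ) : ℝ) ≤
          ((BM (fun v => H.neighborFinset v) (univ \ P) (univ \ R)).card : ℝ) := by
        exact_mod_cast h1
      refine h5.trans ?_
      rw [← Real.log_le_iff_le_exp (by exact_mod_cast hpos)]
      exact h3.trans h4
  rw [card_eq_sum_card_fiberwise hmaps]
  push_cast
  refine (sum_le_sum hfib).trans (le_of_eq ?_)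
  rw [sum_const, nsmul_eq_mul, hT, card_product, card_powersetCard, card_univ]
  push_cast
  ring

end

/-- `C(n,r) ≤ (e n / r)^r`. -/
theorem choose_le (n r : ℕ) (hr : 1 ≤ r) :
    (n.choose r : ℝ) ≤ (Real.exp 1 * n / r) ^ r := by
  have hr0 : (0 : ℝ) < r := by exact_mod_cast hr
  have h1 : (n.choose r : ℝ) ≤ (n : ℝ) ^ r / r.factorial := Nat.choose_le_pow_div r n
  have h2 := Real.pow_div_factorial_le_exp (r : ℝ) hr0.le r
  have hf : (0 : ℝ) < r.factorial := by positivity
  refine h1.trans ?_
  rw [div_pow, mul_pow, ← Real.exp_nat_mul, mul_one, div_le_div_iff₀ hf (by positivity)]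
  rw [div_le_iff₀ hf] at h2
  have h3 : (0 : ℝ) ≤ (n : ℝ) ^ r := by positivity
  calc (n : ℝ) ^ r * (r : ℝ) ^ r ≤ (n : ℝ) ^ r * (Real.exp r * r.factorial) :=
        mul_le_mul_of_nonneg_left h2 h3
    _ = _ := by ring

section

variable {W : Type*} [Fintype W]

open scoped Classical in
/-- The number of permutations along the edges with more than `t` cycles. -/
theorem card_many (H : SimpleGraph W) {D t : ℕ} (hD : ∀ v, H.degree v ≤ D) (ht : 1 ≤ t)
    (hq : (Real.exp 1 * Fintype.card W / t) ^ 2 * Real.exp (-phi D) ≤ 1) :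
    (((EP H).filter (fun σ => t < (reps σ).card)).card : ℝ) ≤
      ((Fintype.card W : ℝ) + 1) *
        (((Real.exp 1 * Fintype.card W / t) ^ 2 * Real.exp (-phi D)) ^ t *
          Real.exp (Fintype.card W * phi D)) := by
  set n := Fintype.card W with hn
  set q := (Real.exp 1 * n / t) ^ 2 * Real.exp (-phi D) with hqdef
  have hq0 : 0 ≤ q := by positivity
  have ht0 : (0 : ℝ) < t := by exact_mod_cast ht
  have h1 : (EP H).filter (fun σ => t < (reps σ).card) =
      ((range (n + 1)).filter (fun r => t < r)).biUnion
        (fun r => (EP H).filter (fun σ => (reps σ).card = r)) := by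
    ext σ
    simp only [mem_filter, mem_biUnion, mem_range]
    constructor
    · rintro ⟨h, h'⟩
      exact ⟨(reps σ).card, ⟨Nat.lt_succ_of_le (card_le_univ _), h'⟩, h, rfl⟩
    · rintro ⟨r, ⟨-, h⟩, h', rfl⟩
      exact ⟨h', h⟩
  have h2 : (((EP H).filter (fun σ => t < (reps σ).card)).card : ℝ) ≤
      ∑ r ∈ (range (n + 1)).filter (fun r => t < r),
        (((EP H).filter (fun σ => (reps σ).card = r)).card : ℝ) := by
    rw [h1]
    exact_mod_cast card_biUnion_le
  have h3 : ∀ r ∈ (range (n + 1)).filter (fun r => t < r),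
      (((EP H).filter (fun σ => (reps σ).card = r)).card : ℝ) ≤
        q ^ t * Real.exp (n * phi D) := by
    intro r hr
    rw [mem_filter] at hr
    have hr1 : 1 ≤ r := by omega
    have hr0 : (0 : ℝ) < r := by exact_mod_cast hr1
    have htr : (t : ℝ) ≤ r := by exact_mod_cast hr.2.le
    have h4 := card_reps_eq_le H hD r
    rw [← hn] at h4
    refine h4.trans ?_
    have h5 : ((n.choose r : ℕ) : ℝ) ^ 2 ≤ ((Real.exp 1 * n / t) ^ 2) ^ r := by
      have h6 := choose_le n r hr1
      have h7 : (Real.exp 1 * n / r) ^ r ≤ (Real.exp 1 * n / t) ^ r := by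
        apply pow_le_pow_left₀ (by positivity)
        exact div_le_div_of_nonneg_left (by positivity) ht0 htr
      calc ((n.choose r : ℕ) : ℝ) ^ 2 ≤ ((Real.exp 1 * n / t) ^ r) ^ 2 :=
            pow_le_pow_left₀ (Nat.cast_nonneg _) (h6.trans h7) 2
        _ = _ := by rw [← pow_mul, ← pow_mul, mul_comm r 2]
    have h8 : Real.exp (((n : ℝ) - r) * phi D) =
        (Real.exp (-phi D)) ^ r * Real.exp (n * phi D) := by
      rw [← Real.exp_nat_mul, ← Real.exp_add]
      congr 1
      ring
    rw [h8, ← mul_assoc]
    apply mul_le_mul_of_nonneg_right _ (Real.exp_pos _).le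
    calc ((n.choose r : ℕ) : ℝ) ^ 2 * Real.exp (-phi D) ^ r
        ≤ ((Real.exp 1 * n / t) ^ 2) ^ r * Real.exp (-phi D) ^ r :=
          mul_le_mul_of_nonneg_right h5 (by positivity)
      _ = q ^ r := by rw [hqdef, mul_pow]
      _ ≤ q ^ t := pow_le_pow_of_le_one hq0 hq hr.2.le
  refine h2.trans ((sum_le_sum h3).trans ?_)
  rw [sum_const, nsmul_eq_mul]
  apply mul_le_mul_of_nonneg_right _ (by positivity)
  have h4 := card_filter_le (range (n + 1)) (fun r => t < r)
  rw [card_range] at h4
  exact_mod_cast h4

open scoped Classical in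
/-- The number of small sets. -/
theorem card_small_sets (t : ℕ) :
    ((univ : Finset (Finset W)).filter (fun R => R.card ≤ t)).card ≤
      (Fintype.card W + 1) ^ t := by
  have h1 : (univ : Finset (Finset W)).filter (fun R => R.card ≤ t) ⊆
      (univ : Finset (Fin t → Option W)).image
        (fun f => univ.filter (fun w => ∃ i, f i = some w)) := by
    intro R hR
    rw [mem_filter] at hR
    rw [mem_image]
    refine ⟨fun i => R.toList[i.val]?, mem_univ _, ?_⟩
    ext w
    rw [mem_filter]
    constructor
    · rintro ⟨-, i, hi⟩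
      rw [← Finset.mem_toList]
      exact List.mem_of_getElem? hi
    · intro hw
      refine ⟨mem_univ _, ?_⟩
      rw [← Finset.mem_toList] at hw
      obtain ⟨i, hi⟩ := List.mem_iff_getElem?.1 hw
      have hlt : i < R.toList.length := by
        by_contra h
        rw [List.getElem?_eq_none (not_lt.1 h)] at hi
        exact absurd hi (by simp)
      rw [Finset.length_toList] at hlt
      exact ⟨⟨i, by omega⟩, hi⟩
  refine (card_le_card h1).trans (card_image_le.trans ?_)
  rw [card_univ, Fintype.card_fun, Fintype.card_option, Fintype.card_fin]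

open scoped Classical in
theorem exists_pattern_sharp (H : SimpleGraph W) (t : ℕ) (hW : 1 ≤ Fintype.card W) :
    ∃ (R : Finset W) (s : W → W), R.card ≤ t ∧
      ((EP H).filter (fun σ => ¬ t < (reps σ).card)).card ≤
        (((EP H).filter (fun σ => reps σ = R ∧ clo σ = s)).card) *
          ((Fintype.card W + 1) ^ t * Fintype.card W ^ t) := by
  set S := (EP H).filter (fun σ => ¬ t < (reps σ).card) with hS
  set K : Finset (Σ _ : Finset W, W → W) :=
    (Finset.univ.filter (fun R : Finset W => R.card ≤ t)).sigma
      (fun R => Fintype.piFinset (fun v => if v ∈ R then (Finset.univ : Finset W) else {v})) with hK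
  have hKcard : K.card ≤ (Fintype.card W + 1) ^ t * Fintype.card W ^ t := by
    rw [hK, Finset.card_sigma]
    have h1 : ∀ R ∈ (Finset.univ.filter (fun R : Finset W => R.card ≤ t)),
        (Fintype.piFinset (fun v => if v ∈ R then (Finset.univ : Finset W) else {v})).card ≤
          Fintype.card W ^ t := by
      intro R hR
      rw [Finset.mem_filter] at hR
      rw [Fintype.card_piFinset]
      have h2 : ∀ v ∈ (Finset.univ : Finset W), (if v ∈ R then (Finset.univ : Finset W) else {v}).card
          ≤ if v ∈ R then Fintype.card W else 1 := by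
        intro v _
        by_cases hv : v ∈ R
        · rw [if_pos hv, if_pos hv, Finset.card_univ]
        · rw [if_neg hv, if_neg hv, Finset.card_singleton]
      refine (Finset.prod_le_prod' h2).trans ?_
      rw [Finset.prod_ite, Finset.prod_const_one, mul_one, Finset.prod_const]
      have h3 : (Finset.univ.filter (fun v => v ∈ R)) = R := by ext v; simp
      rw [h3]
      exact Nat.pow_le_pow_right hW hR.2
    refine (Finset.sum_le_card_nsmul _ _ _ h1).trans ?_
    rw [smul_eq_mul]
    exact Nat.mul_le_mul_right _ (card_small_sets t)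
  let key : Equiv.Perm W → (Σ _ : Finset W, W → W) := fun σ => ⟨reps σ, clo σ⟩
  have hmaps : ∀ σ ∈ S, key σ ∈ K := by
    intro σ hσ
    rw [hS, Finset.mem_filter] at hσ
    rw [hK, Finset.mem_sigma, Finset.mem_filter, Fintype.mem_piFinset]
    refine ⟨⟨Finset.mem_univ _, by simp only [key]; omega⟩, ?_⟩
    intro v
    by_cases hv : v ∈ reps σ
    · simp only [key]; rw [if_pos hv]; exact Finset.mem_univ _
    · simp only [key]; rw [if_neg hv, Finset.mem_singleton]; unfold clo; rw [if_neg hv]
  have hKne : K.Nonempty := by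
    refine ⟨⟨∅, id⟩, ?_⟩
    rw [hK, Finset.mem_sigma, Finset.mem_filter, Fintype.mem_piFinset]
    refine ⟨⟨Finset.mem_univ _, by simp⟩, ?_⟩
    intro v; simp
  obtain ⟨⟨R, s⟩, hb, hmax⟩ := Finset.exists_max_image K
    (fun b => (S.filter (fun σ => key σ = b)).card) hKne
  have h1 := Finset.card_le_mul_card_image_of_maps_to (f := key) (s := S) hmaps
    ((S.filter (fun σ => key σ = ⟨R, s⟩)).card) (fun b hb' => hmax b hb')
  rw [hK, Finset.mem_sigma, Finset.mem_filter] at hb
  refine ⟨R, s, hb.1.2, ?_⟩
  refine h1.trans ?_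
  apply Nat.mul_le_mul _ hKcard
  apply Finset.card_le_card
  intro σ hσ
  rw [Finset.mem_filter, hS, Finset.mem_filter] at hσ
  rw [Finset.mem_filter]
  refine ⟨hσ.1.1, ?_⟩
  have := hσ.2
  simp only [key, Sigma.mk.injEq, heq_eq_eq] at this
  exact this

end

open scoped Classical in
/-- A gadget from any graph with bounded degrees, sharp form. -/
theorem gadget_sharp {W : Type} [Fintype W] (H : SimpleGraph W) {g D t : ℕ} (hH : NoShort H g)
    (hD : ∀ v, H.degree v ≤ D) (ht : 1 ≤ t) (hW : 1 ≤ Fintype.card W)
    (hq : (Real.exp 1 * Fintype.card W / t) ^ 2 * Real.exp (-phi D) ≤ 1) :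
    ∃ L, HasGadget g (Fintype.card W + g * t) L ∧
      ((EP H).card : ℝ) ≤ ((Fintype.card W : ℝ) + 1) *
        (((Real.exp 1 * Fintype.card W / t) ^ 2 * Real.exp (-phi D)) ^ t *
          Real.exp (Fintype.card W * phi D)) +
        L * (((Fintype.card W : ℝ) + 1) ^ t * (Fintype.card W : ℝ) ^ t) := by
  obtain ⟨R, s, hR, hcard⟩ := exists_pattern_sharp H t hW
  refine ⟨((EP H).filter (fun σ => reps σ = R ∧ clo σ = s)).card, ?_, ?_⟩
  · refine ⟨W, inferInstance, H, R, s, hH, ?_, _, le_rfl, ?_⟩
    · exact Nat.add_le_add_left (Nat.mul_le_mul_left _ hR) _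
    · intro σ hσ
      rw [Finset.mem_filter] at hσ
      have := good_of_mem hσ.1
      rw [hσ.2.1, hσ.2.2] at this
      exact this
  · have h1 := card_many H hD ht hq
    have h2 := Finset.card_filter_add_card_filter_not (s := EP H) (fun σ => t < (reps σ).card)
    have h3 : (((EP H).filter (fun σ => ¬ t < (reps σ).card)).card : ℝ) ≤
        (((EP H).filter (fun σ => reps σ = R ∧ clo σ = s)).card : ℝ) *
          (((Fintype.card W : ℝ) + 1) ^ t * (Fintype.card W : ℝ) ^ t) := by
      exact_mod_cast hcard
    have h4 : ((EP H).card : ℝ) = (((EP H).filter (fun σ => t < (reps σ).card)).card : ℝ) +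
        (((EP H).filter (fun σ => ¬ t < (reps σ).card)).card : ℝ) := by
      exact_mod_cast h2.symm
    rw [h4]
    exact add_le_add h1 h3

end Pool.Agent.Helper64.Sharp
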