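import Pool.Agent.Helper64.Cyc.ExUpper

/-!
# The number of edges of graphs of even girth: upper bound with the right constant
-/

set_option autoImplicit false

namespace Pool.Agent.Helper64.Sharp

open SimpleGraph Finset Pool.Agent.Helper72.Cyc Pool.Agent.Helper64.Cyc

section

variable {V : Type*} {G : SimpleGraph V}

lemma NBS.tail {l : ℕ} {u : ℕ → V} (h : NBS G (l + 1) u) : NBS G l (fun i => u (i + 1)) :=
  ⟨fun i hi => h.adj (i + 1) (by omega), fun i hi => h.nb (i + 1) (by omega)⟩

variable [Fintype V] [DecidableEq V] [DecidableRel G.Adj]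

lemma T_opp {g k : ℕ} (hG : NoShort G g) (hk : 2 * k + 1 < g) {x y : V} (hxy : G.Adj x y) :
    Disjoint (T G k x y) (T G k y x) := by
  rw [Finset.disjoint_left]
  intro w hw hw'
  rcases Nat.eq_zero_or_pos k with h0 | hpos
  · subst h0
    rw [T_zero, Finset.mem_singleton] at hw hw'
    exact hxy.ne (hw'.symm.trans hw)
  · obtain ⟨u, hu, a0, a1, a2⟩ := exists_nbs_of_mem hxy hw
    obtain ⟨u', hu', b0, b1, b2⟩ := exists_nbs_of_mem hxy.symm hw'
    have h1 := nbs_first hG hu (NBS.tail hu') (by omega) hpos (by omega)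
      (a0.trans b1.symm) (a2.trans b2.symm)
    rw [a1] at h1
    have h2 := hu'.nb 0 (by omega)
    apply h2
    rw [b0]
    exact h1.symm

/-- The averaged tree bound, with the pairing of the two directions of an edge. -/
lemma avgL_le {g k : ℕ} (hG : NoShort G g) (hd : ∀ v, 2 ≤ G.degree v) (hk : 2 * k + 1 < g) :
    avgL G k ≤ 2 * G.edgeFinset.card * Real.log ((Fintype.card V : ℝ) / 2) := by
  have hsum : ∑ y, (G.degree y : ℝ) = 2 * G.edgeFinset.card := by
    have := G.sum_degrees_eq_twice_card_edges
    exact_mod_cast this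
  have h1 : 2 * avgL G k = ∑ y, ∑ x ∈ G.neighborFinset y,
      (Real.log ((T G k x y).card : ℝ) + Real.log ((T G k y x).card : ℝ)) := by
    have h2 := sum_pairs_swap (G := G) (fun x y => Real.log ((T G k x y).card : ℝ))
    simp only [Finset.sum_add_distrib]
    rw [← h2]
    unfold avgL
    ring
  have h2 : ∀ y, ∑ x ∈ G.neighborFinset y,
      (Real.log ((T G k x y).card : ℝ) + Real.log ((T G k y x).card : ℝ)) ≤
      G.degree y * (2 * Real.log ((Fintype.card V : ℝ) / 2)) := by
    intro y
    rw [← G.card_neighborFinset_eq_degree, ← nsmul_eq_mul, ← Finset.sum_const]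
    apply Finset.sum_le_sum
    intro x hx
    rw [mem_neighborFinset] at hx
    have e1 : 1 ≤ (T G k x y).card := one_le_card_T hG hd x y (by omega)
    have e2 : 1 ≤ (T G k y x).card := one_le_card_T hG hd y x (by omega)
    have e3 : (T G k x y).card + (T G k y x).card ≤ Fintype.card V := by
      rw [← Finset.card_union_of_disjoint (T_opp hG hk hx.symm)]
      exact Finset.card_le_univ _
    have f1 : (1 : ℝ) ≤ (T G k x y).card := by exact_mod_cast e1
    have f2 : (1 : ℝ) ≤ (T G k y x).card := by exact_mod_cast e2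
    have f3 : ((T G k x y).card : ℝ) + (T G k y x).card ≤ Fintype.card V := by exact_mod_cast e3
    rw [← Real.log_mul (by linarith) (by linarith)]
    have f4 : 2 * Real.log ((Fintype.card V : ℝ) / 2) =
        Real.log (((Fintype.card V : ℝ) / 2) ^ 2) := by
      rw [Real.log_pow]; norm_num
    rw [f4]
    apply Real.log_le_log (by positivity)
    nlinarith [sq_nonneg (((T G k x y).card : ℝ) - (T G k y x).card)]
  have h3 := Finset.sum_le_sum (fun y (_ : y ∈ Finset.univ) => h2 y)
  rw [← h1, ← Finset.sum_mul, hsum] at h3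
  linarith

/-- The averaged tree bound for odd girth. -/
lemma avgL_le' {g k : ℕ} (hG : NoShort G g) (hd : ∀ v, 2 ≤ G.degree v) (hk : 2 * k < g) :
    avgL G k ≤ 2 * G.edgeFinset.card * Real.log ((Fintype.card V : ℝ) / 1) := by
  have hsum : ∑ y, (G.degree y : ℝ) = 2 * G.edgeFinset.card := by
    have := G.sum_degrees_eq_twice_card_edges
    exact_mod_cast this
  have h2 : ∀ y, ∑ x ∈ G.neighborFinset y, Real.log ((T G k x y).card : ℝ) ≤
      G.degree y * Real.log ((Fintype.card V : ℝ) / 1) := by
    intro y
    rw [← G.card_neighborFinset_eq_degree, ← nsmul_eq_mul, ← Finset.sum_const]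
    apply Finset.sum_le_sum
    intro x hx
    have e1 : 1 ≤ (T G k x y).card := one_le_card_T hG hd x y (by omega)
    apply Real.log_le_log (by exact_mod_cast e1)
    rw [div_one]
    exact_mod_cast Finset.card_le_univ _
  have h3 := Finset.sum_le_sum (fun y (_ : y ∈ Finset.univ) => h2 y)
  rw [← Finset.sum_mul, hsum] at h3
  exact h3

lemma deg_log_lower {d D : ℝ} (hd : 2 ≤ d) (hD : 0 < D) :
    D * Real.log D + (1 + Real.log D) * (d - D) - 2 ≤ d * Real.log (d - 1) := by
  have hd0 : 0 < d := by linarith
  have h1 := Real.one_sub_inv_le_log_of_pos (show 0 < d / D by positivity)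
  rw [Real.log_div hd0.ne' hD.ne', inv_div] at h1
  have h2 := mul_le_mul_of_nonneg_left h1 hd0.le
  have h3 : d * (1 - D / d) = d - D := by field_simp
  rw [h3] at h2
  have h4 := Real.one_sub_inv_le_log_of_pos (show 0 < (d - 1) / d by
    apply div_pos <;> linarith)
  rw [Real.log_div (by linarith) hd0.ne', inv_div] at h4
  have h5 := mul_le_mul_of_nonneg_left h4 hd0.le
  have h6 : d * (1 - d / (d - 1)) = -(d / (d - 1)) := by
    have : d - 1 ≠ 0 := by linarith
    field_simp
    ring
  have h7 : d / (d - 1) ≤ 2 := by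
    rw [div_le_iff₀ (by linarith)]; linarith
  rw [h6] at h5
  nlinarith

/-- The two cases: even girth (`r = 2`) and odd girth (`r = 1`). -/
def Par (g k : ℕ) (r : ℝ) : Prop := (2 * k + 1 < g ∧ r = 2) ∨ (2 * k < g ∧ r = 1)

lemma Par.pos {g k : ℕ} {r : ℝ} (h : Par g k r) : 0 < r := by
  rcases h with ⟨-, h⟩ | ⟨-, h⟩ <;> rw [h] <;> norm_num

lemma edges_min_two {g k : ℕ} {r : ℝ} (hr : Par g k r) (hG : NoShort G g)
    (hd : ∀ v, 2 ≤ G.degree v)
    (hV : 0 < Fintype.card V) (hE : 0 < G.edgeFinset.card) :
    k * (Real.log (2 * G.edgeFinset.card / Fintype.card V) -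
      (Fintype.card V : ℝ) / G.edgeFinset.card) ≤ Real.log ((Fintype.card V : ℝ) / r) := by
  have hsum : ∑ y, (G.degree y : ℝ) = 2 * G.edgeFinset.card := by
    have := G.sum_degrees_eq_twice_card_edges
    exact_mod_cast this
  obtain ⟨n, hn⟩ : ∃ n : ℝ, n = Fintype.card V := ⟨_, rfl⟩
  obtain ⟨m, hm⟩ : ∃ m : ℝ, m = G.edgeFinset.card := ⟨_, rfl⟩
  have hn0 : 0 < n := by rw [hn]; exact_mod_cast hV
  have hm0 : 0 < m := by rw [hm]; exact_mod_cast hE
  have hk2 : 2 * k < g := by rcases hr with ⟨h, -⟩ | ⟨h, -⟩ <;> omega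
  have h1 := avgL_ge hG hd k hk2
  have h2 : avgL G k ≤ 2 * G.edgeFinset.card * Real.log ((Fintype.card V : ℝ) / r) := by
    rcases hr with ⟨h, h'⟩ | ⟨h, h'⟩
    · rw [h']; exact avgL_le hG hd h
    · rw [h']; exact avgL_le' hG hd h
  rw [← hn, ← hm] at h2
  rw [← hm] at hsum
  rw [← hn, ← hm]
  have hD : 0 < 2 * m / n := by positivity
  have h3 : 2 * m * Real.log (2 * m / n) - 2 * n ≤
      ∑ y, (G.degree y : ℝ) * Real.log ((G.degree y : ℝ) - 1) := by
    have e1 : ∑ y : V, (2 * m / n * Real.log (2 * m / n) +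
        (1 + Real.log (2 * m / n)) * ((G.degree y : ℝ) - 2 * m / n) - 2) =
        2 * m * Real.log (2 * m / n) - 2 * n := by
      obtain ⟨c, hc⟩ : ∃ c, c = 1 + Real.log (2 * m / n) := ⟨_, rfl⟩
      have e0 : ∑ y : V, c * ((G.degree y : ℝ) - 2 * m / n) = c * (2 * m - n * (2 * m / n)) := by
        rw [← Finset.mul_sum, Finset.sum_sub_distrib, hsum, Finset.sum_const, Finset.card_univ,
          nsmul_eq_mul, ← hn]
      rw [← hc, Finset.sum_sub_distrib, Finset.sum_add_distrib, e0, Finset.sum_const,
        Finset.sum_const, Finset.card_univ]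
      simp only [nsmul_eq_mul]
      rw [← hn, hc]
      field_simp
      ring
    rw [← e1]
    apply Finset.sum_le_sum
    intro y _
    exact deg_log_lower (by exact_mod_cast hd y) hD
  have h4 : (k : ℝ) * (2 * m * Real.log (2 * m / n) - 2 * n) ≤
      2 * m * Real.log (n / r) :=
    (mul_le_mul_of_nonneg_left h3 (Nat.cast_nonneg _)).trans (h1.trans h2)
  have h5 : (k : ℝ) * (2 * m * Real.log (2 * m / n) - 2 * n) =
      2 * m * (k * (Real.log (2 * m / n) - n / m)) := by
    field_simp
  rw [h5] at h4
  exact le_of_mul_le_mul_left h4 (by positivity)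

end

/-- Upper bound for the number of edges of graphs of girth at least `2k + 2` or `2k + 1`. -/
lemma ex_upper {g k : ℕ} {r : ℝ} (hr : Par g k r) (n : ℕ) :
    1 ≤ n → n ≤ maxEdges n g →
    k * (Real.log (2 * maxEdges n g / n) - (n : ℝ) / maxEdges n g) ≤ Real.log ((n : ℝ) / r) := by
  have hr0 := hr.pos
  classical
  induction n with
  | zero => intro h; omega
  | succ n ih =>
    intro _ h
    obtain ⟨G, hG, hcard⟩ := exists_maxEdges (n + 1) g
    by_cases hd : ∀ v, 2 ≤ G.degree v
    · have := edges_min_two hr hG hd (by rw [Fintype.card_fin]; omega) (by rw [hcard]; omega)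
      rw [hcard, Fintype.card_fin] at this
      exact this
    · push Not at hd
      obtain ⟨v, hv⟩ := hd
      have h2 : (G.induce {v}ᶜ).edgeFinset.card = G.edgeFinset.card - G.degree v :=
        by rw [card_edgeFinset_induce_compl_singleton, card_edgeFinset_deleteIncidenceSet]
      have h3 : (G.induce {v}ᶜ).edgeFinset.card ≤ maxEdges n g := by
        apply card_edges_le_maxEdges
        · exact hG.comap Subtype.val Subtype.val_injective (fun a b hab => hab)
        · rw [Fintype.card_compl_set, Fintype.card_fin]; simp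
      have h4 : maxEdges (n + 1) g ≤ maxEdges n g + 1 := by omega
      have h5 : n ≤ maxEdges n g := by omega
      have hn1 : 1 ≤ n := by
        by_contra hlt
        have hn0 : n = 0 := by omega
        subst hn0
        have hdeg : G.edgeFinset.card = 0 := by
          rw [Finset.card_eq_zero, Finset.eq_empty_iff_forall_notMem]
          intro e he
          induction e with
          | _ a b =>
            rw [mem_edgeFinset, mem_edgeSet] at he
            apply he.ne
            apply Fin.ext
            omega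
        omega
      have h8 := ih hn1 h5
      have hn0 : (1 : ℝ) ≤ n := by exact_mod_cast hn1
      have hE : (n : ℝ) ≤ maxEdges n g := by exact_mod_cast h5
      have hE' : (n : ℝ) + 1 ≤ maxEdges (n + 1) g := by exact_mod_cast h
      have h4' : (maxEdges (n + 1) g : ℝ) ≤ maxEdges n g + 1 := by exact_mod_cast h4
      refine le_trans (mul_le_mul_of_nonneg_left ?_ (Nat.cast_nonneg _)) (h8.trans ?_)
      · push_cast
        have e1 : Real.log (2 * maxEdges (n + 1) g / ((n : ℝ) + 1)) ≤
            Real.log (2 * maxEdges n g / n) := by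
          apply Real.log_le_log (by apply div_pos <;> linarith)
          rw [div_le_div_iff₀ (by linarith) (by linarith)]
          nlinarith
        have e2 : (n : ℝ) / maxEdges n g ≤ ((n : ℝ) + 1) / maxEdges (n + 1) g := by
          rw [div_le_div_iff₀ (by linarith) (by linarith)]
          nlinarith
        linarith
      · apply Real.log_le_log (by apply div_pos <;> linarith)
        push_cast
        apply div_le_div_of_nonneg_right _ hr0.le
        linarith

end Pool.Agent.Helper64.Sharp
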